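import Pool.Agent.W2helper2.RLGenus5

set_option autoImplicit false

/-!
# Unitarity of the finite Fourier transform (JobFinFour)
-/

open Matrix

namespace Pool.Agent.W2helper2.RLFinFour

open Pool.Agent.Y813.RL

theorem ee_add (x y : ℂ) : ee (x + y) = ee x * ee y := by
  rw [ee, ee, ee, ← Complex.exp_add]
  congr 1
  ring

theorem ee_int (n : ℤ) : ee n = 1 := by
  rw [ee, Complex.exp_eq_one_iff]
  exact ⟨n, by ring⟩

theorem ee_eq_one (x : ℝ) (h : ee x = 1) : ∃ n : ℤ, x = n := by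
  rw [ee, Complex.exp_eq_one_iff] at h
  obtain ⟨n, hn⟩ := h
  refine ⟨n, ?_⟩
  have h2 : (2 * Real.pi * Complex.I : ℂ) ≠ 0 := Complex.two_pi_I_ne_zero
  have h3 : (2 * Real.pi * Complex.I : ℂ) * x = (2 * Real.pi * Complex.I : ℂ) * n := by
    rw [hn]; ring
  have h4 := mul_left_cancel₀ h2 h3
  exact_mod_cast h4

theorem conj_ee (x : ℝ) : (starRingEnd ℂ) (ee (-(x : ℂ))) = ee x := by
  rw [ee, ee, ← Complex.exp_conj]
  congr 1
  simp [map_ofNat]

section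

variable {A : Matrix (Fin 20) (Fin 20) ℤ}

theorem bd_add_left (μ μ' ν : Fin 20 → ℤ) : bd A (μ + μ') ν = bd A μ ν + bd A μ' ν := by
  simp only [bd, Pi.add_apply, Int.cast_add, add_mul, Finset.sum_add_distrib]

theorem bd_sub_right (μ ν ν' : Fin 20 → ℤ) : bd A μ (ν - ν') = bd A μ ν - bd A μ ν' := by
  have h : (fun j => (((ν - ν') j : ℤ) : ℝ)) = (fun j => (ν j : ℝ)) - (fun j => (ν' j : ℝ)) := by
    ext j
    simp
  simp only [bd]
  rw [h, Matrix.mulVec_sub]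
  simp only [Pi.sub_apply, mul_sub, Finset.sum_sub_distrib]

theorem bd_single (i : Fin 20) (ν : Fin 20 → ℤ) : bd A (Pi.single i 1) ν =
    ((A.map (Int.cast : ℤ → ℝ))⁻¹ *ᵥ (fun j => (ν j : ℝ))) i := by
  rw [bd, Finset.sum_eq_single i]
  · simp
  · intro j _ hj
    simp [hj]
  · simp

theorem bd_mulVec (hA : PosSymm A) (v ν : Fin 20 → ℤ) : bd A (A *ᵥ v) ν = ((v ⬝ᵥ ν : ℤ) : ℝ) := by
  set AR := A.map (Int.cast : ℤ → ℝ) with hAR
  have hdR : IsUnit AR.det := by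
    rw [hAR, W2helper2.RLGenus.det_map, isUnit_iff_ne_zero]
    exact_mod_cast (W2helper2.RLGenus.det_pos hA).ne'
  have h1 : (fun i => ((A *ᵥ v) i : ℝ)) = AR *ᵥ (fun i => (v i : ℝ)) := by
    ext i
    simp [Matrix.mulVec, dotProduct, hAR]
  have h2 : bd A (A *ᵥ v) ν = (fun i => ((A *ᵥ v) i : ℝ)) ⬝ᵥ (AR⁻¹ *ᵥ (fun j => (ν j : ℝ))) := rfl
  have hsym : ARᵀ = AR := by rw [hAR, ← Matrix.transpose_map, hA.symm]
  rw [h2, h1, Matrix.dotProduct_mulVec, ← Matrix.mulVec_transpose, Matrix.mulVec_mulVec,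
    Matrix.transpose_nonsing_inv, hsym, Matrix.nonsing_inv_mul _ hdR, Matrix.one_mulVec]
  simp [dotProduct]

/-- the lattice `A Z^20` -/
def N (A : Matrix (Fin 20) (Fin 20) ℤ) : Submodule ℤ (Fin 20 → ℤ) := LinearMap.range (Matrix.toLin' A)

theorem mem_N (μ : Fin 20 → ℤ) : μ ∈ N A ↔ ∃ v, A *ᵥ v = μ := by
  simp [N]

theorem card_quot (hA : PosSymm A) : (Nat.card ((Fin 20 → ℤ) ⧸ N A) : ℤ) = A.det := by
  have hd := W2helper2.RLGenus.det_pos hA
  have hinj : Function.Injective (Matrix.toLin' A) := by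
    rw [← LinearMap.ker_eq_bot, LinearMap.ker_eq_bot']
    intro v hv
    exact Matrix.eq_zero_of_mulVec_eq_zero hd.ne' hv
  let e : (Fin 20 → ℤ) ≃ₗ[ℤ] N A := LinearEquiv.ofInjective (Matrix.toLin' A) hinj
  have h1 := Submodule.natAbs_det_basis_change (Pi.basisFun ℤ (Fin 20)) (N A)
    ((Pi.basisFun ℤ (Fin 20)).map e)
  have h2 : ((↑) : N A → (Fin 20 → ℤ)) ∘ ((Pi.basisFun ℤ (Fin 20)).map e) = Aᵀ := by
    ext i j
    have : (((Pi.basisFun ℤ (Fin 20)).map e i : N A) : Fin 20 → ℤ) = A *ᵥ Pi.single i 1 := by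
      rw [Module.Basis.map_apply, Pi.basisFun_apply]
      rfl
    simp only [Function.comp]
    rw [this]
    simp
  have h3 : (Pi.basisFun ℤ (Fin 20)).det (((↑) : N A → (Fin 20 → ℤ)) ∘ ((Pi.basisFun ℤ (Fin 20)).map e)) =
      A.det := by
    rw [h2, ← Matrix.det_transpose A]
    exact Pi.basisFun_det_apply Aᵀ
  rw [h3] at h1
  rw [← h1]
  exact Int.natAbs_of_nonneg hd.le

/-- the character attached to `σ` on the quotient -/
noncomputable def F (A : Matrix (Fin 20) (Fin 20) ℤ) (σ : Fin 20 → ℤ)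
    (d : (Fin 20 → ℤ) ⧸ N A) : ℂ := ee (-(bd A (Quotient.out d) σ : ℂ))

theorem F_mk (hA : PosSymm A) (σ μ : Fin 20 → ℤ) :
    F A σ (Submodule.Quotient.mk μ) = ee (-(bd A μ σ : ℂ)) := by
  have h1 : (Submodule.Quotient.mk (Quotient.out (Submodule.Quotient.mk μ : (Fin 20 → ℤ) ⧸ N A)) :
      (Fin 20 → ℤ) ⧸ N A) = Submodule.Quotient.mk μ := Quotient.out_eq _
  rw [Submodule.Quotient.eq, mem_N] at h1
  obtain ⟨v, hv⟩ := h1
  have h2 : Quotient.out (Submodule.Quotient.mk μ : (Fin 20 → ℤ) ⧸ N A) = A *ᵥ v + μ := by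
    rw [hv]
    abel
  rw [F, h2, bd_add_left, bd_mulVec hA]
  push_cast
  rw [neg_add, ee_add]
  have h3 : ee (-∑ i, ((v i * σ i : ℤ) : ℂ)) = 1 := by
    have := ee_int (-∑ i, (v i * σ i))
    push_cast at this ⊢
    exact this
  have h4 : (((v ⬝ᵥ σ : ℤ) : ℝ) : ℂ) = ∑ i, ((v i * σ i : ℤ) : ℂ) := by
    simp [dotProduct]
  have h5 : ((v ⬝ᵥ σ : ℤ) : ℂ) = ∑ i, ((v i * σ i : ℤ) : ℂ) := by
    simp [dotProduct]
  rw [h5, h3, one_mul]

theorem F_shift (hA : PosSymm A) (σ : Fin 20 → ℤ) (i : Fin 20) (d : (Fin 20 → ℤ) ⧸ N A) :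
    F A σ (d + Submodule.Quotient.mk (Pi.single i 1)) = ee (-(bd A (Pi.single i 1) σ : ℂ)) * F A σ d := by
  obtain ⟨μ, rfl⟩ := Submodule.Quotient.mk_surjective _ d
  rw [← Submodule.Quotient.mk_add, F_mk hA, F_mk hA, bd_add_left]
  push_cast
  rw [neg_add, ee_add, mul_comm]

theorem sum_F [Fintype ((Fin 20 → ℤ) ⧸ N A)] (hA : PosSymm A) (σ : Fin 20 → ℤ) (hσ : σ ∉ N A) :
    ∑ d : (Fin 20 → ℤ) ⧸ N A, F A σ d = 0 := by
  by_contra hne
  apply hσ
  have h1 : ∀ i, ee (-(bd A (Pi.single i 1) σ : ℂ)) = 1 := by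
    intro i
    have h2 : ∑ d : (Fin 20 → ℤ) ⧸ N A, F A σ d =
        ee (-(bd A (Pi.single i 1) σ : ℂ)) * ∑ d : (Fin 20 → ℤ) ⧸ N A, F A σ d := by
      rw [Finset.mul_sum, ← Equiv.sum_comp (Equiv.addRight (Submodule.Quotient.mk (Pi.single i 1)))]
      exact Finset.sum_congr rfl fun d _ => F_shift hA σ i d
    have h3 : (ee (-(bd A (Pi.single i 1) σ : ℂ)) - 1) * ∑ d : (Fin 20 → ℤ) ⧸ N A, F A σ d = 0 := by
      rw [sub_mul, one_mul, ← h2, sub_self]
    rcases mul_eq_zero.1 h3 with h4 | h4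
    · exact sub_eq_zero.1 h4
    · exact absurd h4 hne
  have h2 : ∀ i, ∃ n : ℤ, ((A.map (Int.cast : ℤ → ℝ))⁻¹ *ᵥ (fun j => (σ j : ℝ))) i = n := by
    intro i
    obtain ⟨n, hn⟩ := ee_eq_one (-(bd A (Pi.single i 1) σ)) (by
      have := h1 i
      push_cast
      exact this)
    refine ⟨-n, ?_⟩
    rw [← bd_single]
    push_cast
    linarith
  choose n hn using h2
  rw [mem_N]
  refine ⟨n, ?_⟩
  have hdR : IsUnit (A.map (Int.cast : ℤ → ℝ)).det := by
    rw [W2helper2.RLGenus.det_map, isUnit_iff_ne_zero]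
    exact_mod_cast (W2helper2.RLGenus.det_pos hA).ne'
  have h3 : (A.map (Int.cast : ℤ → ℝ)) *ᵥ (fun i => (n i : ℝ)) = fun j => (σ j : ℝ) := by
    have : (fun i => (n i : ℝ)) = (A.map (Int.cast : ℤ → ℝ))⁻¹ *ᵥ (fun j => (σ j : ℝ)) := by
      ext i
      exact (hn i).symm
    rw [this, Matrix.mulVec_mulVec, Matrix.mul_nonsing_inv _ hdR, Matrix.one_mulVec]
  ext i
  have h4 := congrFun h3 i
  have h5 : ((A.map (Int.cast : ℤ → ℝ)) *ᵥ (fun i => (n i : ℝ))) i = ((A *ᵥ n) i : ℤ) := by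
    simp [Matrix.mulVec, dotProduct]
  rw [h5] at h4
  exact_mod_cast h4

end

theorem job : JobFinFour := by
  classical
  intro A hA
  have hd := W2helper2.RLGenus.det_pos hA
  have hcard := card_quot hA
  have hfin : Finite ((Fin 20 → ℤ) ⧸ N A) := by
    apply Nat.finite_of_card_ne_zero
    intro h
    rw [h] at hcard
    simp only [Nat.cast_zero] at hcard
    omega
  let _ : Fintype ((Fin 20 → ℤ) ⧸ N A) := Fintype.ofFinite _
  let r : (Fin 20 → ℤ) ⧸ N A → (Fin 20 → ℤ) := Quotient.out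
  have hr : ∀ d, Submodule.Quotient.mk (r d) = d := fun d => Quotient.out_eq d
  have hinj : Function.Injective r := fun d d' h => by rw [← hr d, ← hr d', h]
  let R : Finset (Fin 20 → ℤ) := Finset.univ.map ⟨r, hinj⟩
  have hsum : ∀ f : (Fin 20 → ℤ) → ℂ, ∑ μ ∈ R, f μ = ∑ d, f (r d) := by
    intro f
    simp [R]
  refine ⟨hd, R, ?_, ?_, ?_⟩
  · intro μ
    refine ⟨r (Submodule.Quotient.mk μ), ⟨by simp [R], ?_⟩, ?_⟩
    · have := hr (Submodule.Quotient.mk μ)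
      rw [eq_comm, Submodule.Quotient.eq, mem_N] at this
      obtain ⟨v, hv⟩ := this
      exact ⟨v, by rw [hv]; abel⟩
    · rintro ρ ⟨hρ, v, hv⟩
      simp only [R, Finset.mem_map, Finset.mem_univ, true_and, Function.Embedding.coeFn_mk] at hρ
      obtain ⟨d, rfl⟩ := hρ
      congr 1
      rw [← hr d, eq_comm, Submodule.Quotient.eq, mem_N]
      exact ⟨v, by rw [hv]; abel⟩
  · rw [← hcard, Nat.card_eq_fintype_card]
    simp [R]
  · intro a
    have horth : ∀ ρ ∈ R, ∀ ρ' ∈ R, ∑ μ ∈ R, ee (-(bd A μ ρ : ℂ)) * (starRingEnd ℂ) (ee (-(bd A μ ρ' : ℂ))) =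
        if ρ = ρ' then (A.det : ℂ) else 0 := by
      intro ρ hρ ρ' hρ'
      have h1 : ∀ μ, ee (-(bd A μ ρ : ℂ)) * (starRingEnd ℂ) (ee (-(bd A μ ρ' : ℂ))) =
          ee (-(bd A μ (ρ - ρ') : ℂ)) := by
        intro μ
        rw [conj_ee, ← ee_add, bd_sub_right]
        congr 1
        push_cast
        ring
      simp only [h1]
      rw [hsum]
      split_ifs with h
      · subst h
        have h2 : ∀ d, ee (-(bd A (r d) (ρ - ρ) : ℂ)) = 1 := by
          intro d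
          rw [bd_sub_right, sub_self]
          simp [ee]
        simp only [h2]
        rw [← hcard, Nat.card_eq_fintype_card]
        simp
      · apply sum_F hA
        intro h2
        apply h
        simp only [R, Finset.mem_map, Finset.mem_univ, true_and, Function.Embedding.coeFn_mk] at hρ hρ'
        obtain ⟨d, rfl⟩ := hρ
        obtain ⟨d', rfl⟩ := hρ'
        rw [← Submodule.Quotient.eq, hr, hr] at h2
        rw [h2]
    have hC : ((∑ μ ∈ R, ‖∑ ρ ∈ R, ee (-(bd A μ ρ : ℂ)) * a ρ‖ ^ 2 : ℝ) : ℂ) =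
        (((A.det : ℝ) * ∑ ρ ∈ R, ‖a ρ‖ ^ 2 : ℝ) : ℂ) := by
      rw [Complex.ofReal_mul, Complex.ofReal_sum, Complex.ofReal_sum, Complex.ofReal_intCast]
      simp only [Complex.ofReal_pow]
      have h1 : ∀ z : ℂ, ((‖z‖ : ℝ) : ℂ) ^ 2 = z * (starRingEnd ℂ) z := by
        intro z
        rw [Complex.mul_conj, Complex.normSq_eq_norm_sq]
        push_cast
        rfl
      simp only [h1]
      calc ∑ μ ∈ R, (∑ ρ ∈ R, ee (-(bd A μ ρ : ℂ)) * a ρ) *
            (starRingEnd ℂ) (∑ ρ ∈ R, ee (-(bd A μ ρ : ℂ)) * a ρ)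
          = ∑ μ ∈ R, ∑ ρ ∈ R, ∑ ρ' ∈ R, (a ρ * (starRingEnd ℂ) (a ρ')) *
            (ee (-(bd A μ ρ : ℂ)) * (starRingEnd ℂ) (ee (-(bd A μ ρ' : ℂ)))) := by
            refine Finset.sum_congr rfl fun μ _ => ?_
            rw [map_sum, Finset.sum_mul_sum]
            refine Finset.sum_congr rfl fun ρ _ => Finset.sum_congr rfl fun ρ' _ => ?_
            rw [map_mul]
            ring
        _ = ∑ ρ ∈ R, ∑ ρ' ∈ R, (a ρ * (starRingEnd ℂ) (a ρ')) *
            ∑ μ ∈ R, (ee (-(bd A μ ρ : ℂ)) * (starRingEnd ℂ) (ee (-(bd A μ ρ' : ℂ)))) := by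
            rw [Finset.sum_comm]
            refine Finset.sum_congr rfl fun ρ _ => ?_
            rw [Finset.sum_comm]
            refine Finset.sum_congr rfl fun ρ' _ => ?_
            rw [Finset.mul_sum]
        _ = ∑ ρ ∈ R, ∑ ρ' ∈ R, (a ρ * (starRingEnd ℂ) (a ρ')) * (if ρ = ρ' then (A.det : ℂ) else 0) := by
            refine Finset.sum_congr rfl fun ρ hρ => Finset.sum_congr rfl fun ρ' hρ' => ?_
            rw [horth ρ hρ ρ' hρ']
        _ = ∑ ρ ∈ R, (a ρ * (starRingEnd ℂ) (a ρ)) * (A.det : ℂ) := by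
            refine Finset.sum_congr rfl fun ρ hρ => ?_
            simp [hρ]
        _ = (A.det : ℂ) * ∑ ρ ∈ R, a ρ * (starRingEnd ℂ) (a ρ) := by
            rw [Finset.mul_sum]
            exact Finset.sum_congr rfl fun ρ _ => by ring
    exact_mod_cast hC

end Pool.Agent.W2helper2.RLFinFour
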