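import Mathlib

set_option autoImplicit false

/-!
# Isometry classes of bilinear forms given by Gram matrices
-/

open Matrix

namespace Pool.Agent.W2helper2.RLGenus

section basic

variable {R : Type} [CommRing R]

/-- congruence of Gram matrices -/
def CgM {ι κ : Type} [Fintype ι] [Fintype κ] [DecidableEq ι] [DecidableEq κ]
    (A : Matrix ι ι R) (B : Matrix κ κ R) : Prop :=
  ∃ (P : Matrix ι κ R) (Q : Matrix κ ι R), P * Q = 1 ∧ Q * P = 1 ∧ Pᵀ * A * P = B

variable {ι κ μ ν : Type} [Fintype ι] [Fintype κ] [Fintype μ] [Fintype ν]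
  [DecidableEq ι] [DecidableEq κ] [DecidableEq μ] [DecidableEq ν]

theorem CgM.refl (A : Matrix ι ι R) : CgM A A := ⟨1, 1, by simp, by simp, by simp⟩

theorem CgM.symm {A : Matrix ι ι R} {B : Matrix κ κ R} (h : CgM A B) : CgM B A := by
  obtain ⟨P, Q, h1, h2, rfl⟩ := h
  refine ⟨Q, P, h2, h1, ?_⟩
  have h3 : Qᵀ * Pᵀ = 1 := by rw [← Matrix.transpose_mul, h1, Matrix.transpose_one]
  calc Qᵀ * (Pᵀ * A * P) * Q = (Qᵀ * Pᵀ) * A * (P * Q) := by simp only [Matrix.mul_assoc]
    _ = A := by rw [h3, h1, Matrix.one_mul, Matrix.mul_one]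

theorem CgM.trans {A : Matrix ι ι R} {B : Matrix κ κ R} {C : Matrix μ μ R}
    (h : CgM A B) (h' : CgM B C) : CgM A C := by
  obtain ⟨P, Q, h1, h2, rfl⟩ := h
  obtain ⟨P', Q', h1', h2', rfl⟩ := h'
  refine ⟨P * P', Q' * Q, ?_, ?_, ?_⟩
  · calc P * P' * (Q' * Q) = P * (P' * Q') * Q := by simp only [Matrix.mul_assoc]
      _ = 1 := by rw [h1', Matrix.mul_one, h1]
  · calc Q' * Q * (P * P') = Q' * (Q * P) * P' := by simp only [Matrix.mul_assoc]
      _ = 1 := by rw [h2, Matrix.mul_one, h2']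
  · rw [Matrix.transpose_mul]
    simp only [Matrix.mul_assoc]

theorem CgM.reindex (A : Matrix ι ι R) (e : κ ≃ ι) : CgM A (A.submatrix e e) := by
  refine ⟨(1 : Matrix ι ι R).submatrix id e, (1 : Matrix ι ι R).submatrix e id, ?_, ?_, ?_⟩
  · rw [Matrix.submatrix_mul_equiv]
    simp
  · ext i j
    simp [Matrix.mul_apply, Matrix.one_apply, Matrix.submatrix_apply]
  · ext i j
    simp [Matrix.mul_apply, Matrix.one_apply, Matrix.submatrix_apply]

theorem CgM.add {A : Matrix ι ι R} {A' : Matrix κ κ R} {B : Matrix μ μ R} {B' : Matrix ν ν R}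
    (h : CgM A A') (h' : CgM B B') :
    CgM (fromBlocks A 0 0 B) (fromBlocks A' 0 0 B') := by
  obtain ⟨P, Q, h1, h2, rfl⟩ := h
  obtain ⟨P', Q', h1', h2', rfl⟩ := h'
  refine ⟨fromBlocks P 0 0 P', fromBlocks Q 0 0 Q', ?_, ?_, ?_⟩
  · simp [fromBlocks_multiply, h1, h1', fromBlocks_one]
  · simp [fromBlocks_multiply, h2, h2', fromBlocks_one]
  · simp [fromBlocks_multiply, fromBlocks_transpose]

/-- schur complement -/
theorem CgM.schur (A : Matrix ι ι R) (A' : Matrix ι ι R) (B : Matrix ι κ R) (D : Matrix κ κ R)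
    (hA : Aᵀ = A) (h : A * A' = 1) :
    CgM (fromBlocks A B Bᵀ D) (fromBlocks A 0 0 (D - Bᵀ * A' * B)) := by
  have h' : A' * A = 1 := mul_eq_one_comm.1 h
  have hA' : A'ᵀ = A' := by
    have : A'ᵀ * A = 1 := by
      have := congrArg Matrix.transpose h
      rwa [Matrix.transpose_mul, hA, Matrix.transpose_one] at this
    calc A'ᵀ = A'ᵀ * (A * A') := by rw [h, Matrix.mul_one]
      _ = A' := by rw [← Matrix.mul_assoc, this, Matrix.one_mul]
  refine ⟨fromBlocks 1 (-(A' * B)) 0 1, fromBlocks 1 (A' * B) 0 1, ?_, ?_, ?_⟩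
  · simp [fromBlocks_multiply, fromBlocks_one]
  · simp [fromBlocks_multiply, fromBlocks_one]
  · rw [fromBlocks_transpose, fromBlocks_multiply, fromBlocks_multiply]
    congr 1
    · simp
    · simp [← Matrix.mul_assoc, h]
    · simp [hA', Matrix.mul_assoc, h']
    · simp only [Matrix.transpose_neg, Matrix.transpose_mul, hA', Matrix.transpose_one,
        Matrix.one_mul, Matrix.mul_one, Matrix.mul_neg, Matrix.neg_mul, Matrix.mul_assoc,
        Matrix.add_mul]
      have h5 : A' * (A * (A' * B)) = A' * B := by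
        rw [← Matrix.mul_assoc A A' B, h, Matrix.one_mul]
      rw [h5]
      abel

end basic

/-- a bilinear form given by a Gram matrix -/
structure QF (R : Type) where
  /-- index type -/
  ι : Type
  /-- fintype -/
  ft : Fintype ι
  /-- deceq -/
  de : DecidableEq ι
  /-- Gram matrix -/
  A : Matrix ι ι R

attribute [instance] QF.ft QF.de

instance QF.setoid (R : Type) [CommRing R] : Setoid (QF R) where
  r X Y := CgM X.A Y.A
  iseqv := ⟨fun X => CgM.refl X.A, fun h => h.symm, fun h h' => h.trans h'⟩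

/-- isometry classes -/
def Iso (R : Type) [CommRing R] : Type 1 := Quotient (QF.setoid R)

section classes

variable {R : Type} [CommRing R]

variable {ι κ μ ν : Type} [Fintype ι] [Fintype κ] [Fintype μ] [Fintype ν]
  [DecidableEq ι] [DecidableEq κ] [DecidableEq μ] [DecidableEq ν]

/-- the class of a Gram matrix -/
def cl (A : Matrix ι ι R) : Iso R := Quotient.mk (QF.setoid R) ⟨ι, inferInstance, inferInstance, A⟩

theorem cl_eq {A : Matrix ι ι R} {B : Matrix κ κ R} : cl A = cl B ↔ CgM A B :=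
  ⟨fun h => Quotient.exact h, fun h => Quotient.sound h⟩

theorem exists_rep (x : Iso R) : ∃ (ι : Type) (_ : Fintype ι) (_ : DecidableEq ι) (A : Matrix ι ι R),
    cl A = x := by
  induction x using Quotient.inductionOn with
  | _ X => exact ⟨X.ι, X.ft, X.de, X.A, rfl⟩

instance : Add (Iso R) where
  add := Quotient.map₂ (fun X Y => ⟨X.ι ⊕ Y.ι, inferInstance, inferInstance,
    fromBlocks X.A 0 0 Y.A⟩) (fun _ _ h _ _ h' => CgM.add h h')

instance : Zero (Iso R) where
  zero := cl (0 : Matrix Empty Empty R)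

theorem cl_add (A : Matrix ι ι R) (B : Matrix κ κ R) :
    cl A + cl B = cl (fromBlocks A 0 0 B) := rfl

theorem zero_def : (0 : Iso R) = cl (0 : Matrix Empty Empty R) := rfl

theorem cl_reindex (A : Matrix ι ι R) (e : κ ≃ ι) : cl (A.submatrix e e) = cl A :=
  (cl_eq.2 (CgM.reindex A e)).symm

theorem cl_empty [IsEmpty ι] (A : Matrix ι ι R) : cl A = 0 := by
  rw [zero_def, ← cl_reindex A (Equiv.equivOfIsEmpty Empty ι)]
  congr 1
  ext i
  exact i.elim

theorem cl_of_eq_submatrix (A : Matrix ι ι R) (B : Matrix κ κ R) (e : κ ≃ ι)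
    (h : ∀ i j, B i j = A (e i) (e j)) : cl B = cl A := by
  rw [← cl_reindex A e]
  congr 1
  ext i j
  exact h i j

private theorem add_comm' (x y : Iso R) : x + y = y + x := by
  obtain ⟨ι, _, _, A, rfl⟩ := exists_rep x
  obtain ⟨κ, _, _, B, rfl⟩ := exists_rep y
  rw [cl_add, cl_add]
  refine cl_of_eq_submatrix _ _ (Equiv.sumComm ι κ) ?_
  rintro (i | i) (j | j) <;> rfl

private theorem add_assoc' (x y z : Iso R) : x + y + z = x + (y + z) := by
  obtain ⟨ι, _, _, A, rfl⟩ := exists_rep x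
  obtain ⟨κ, _, _, B, rfl⟩ := exists_rep y
  obtain ⟨μ, _, _, C, rfl⟩ := exists_rep z
  rw [cl_add, cl_add, cl_add, cl_add]
  refine cl_of_eq_submatrix _ _ (Equiv.sumAssoc ι κ μ) ?_
  rintro ((i | i) | i) ((j | j) | j) <;> rfl

private theorem zero_add' (x : Iso R) : 0 + x = x := by
  obtain ⟨ι, _, _, A, rfl⟩ := exists_rep x
  rw [zero_def, cl_add]
  refine cl_of_eq_submatrix _ _ (Equiv.emptySum Empty ι) ?_
  rintro (i | i) (j | j)
  · exact i.elim
  · exact i.elim
  · exact j.elim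
  · rfl

instance : AddCommMonoid (Iso R) where
  add_assoc := add_assoc'
  zero_add := zero_add'
  add_zero x := by rw [add_comm', zero_add']
  add_comm := add_comm'
  nsmul := nsmulRec

/-- congruence by an invertible square matrix -/
theorem cl_congr (A P Q : Matrix ι ι R) (h : P * Q = 1) : cl (Pᵀ * A * P) = cl A :=
  (cl_eq.2 ⟨P, Q, h, mul_eq_one_comm.1 h, rfl⟩).symm

theorem cl_congr_det (A P : Matrix ι ι R) (h : IsUnit P.det) : cl (Pᵀ * A * P) = cl A :=
  cl_congr A P P⁻¹ (Matrix.mul_nonsing_inv P h)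

theorem cl_schur (A : Matrix ι ι R) (A' : Matrix ι ι R) (B : Matrix ι κ R) (D : Matrix κ κ R)
    (hA : Aᵀ = A) (h : A * A' = 1) :
    cl (fromBlocks A B Bᵀ D) = cl A + cl (D - Bᵀ * A' * B) := by
  rw [cl_add]
  exact cl_eq.2 (CgM.schur A A' B D hA h)

/-! ### Invariants -/

theorem CgM.card_eq [Nontrivial R] {A : Matrix ι ι R} {B : Matrix κ κ R} (h : CgM A B) :
    Fintype.card ι = Fintype.card κ := by
  obtain ⟨P, Q, h1, h2, -⟩ := h
  have e := Matrix.toLinearEquivRight'OfInv h1 h2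
  have := e.finrank_eq
  simpa using this.symm

theorem CgM.det_eq [Nontrivial R] {A : Matrix ι ι R} {B : Matrix κ κ R} (h : CgM A B) :
    ∃ u : R, IsUnit u ∧ B.det = u ^ 2 * A.det := by
  obtain e := Fintype.equivOfCardEq h.card_eq
  obtain ⟨P, Q, h1, h2, rfl⟩ := h
  refine ⟨(P.submatrix id e).det, ?_, ?_⟩
  · have : (P.submatrix id e) * (Q.submatrix e id) = 1 := by
      rw [Matrix.submatrix_mul_equiv, h1]
      simp
    have := congrArg Matrix.det this
    rw [Matrix.det_mul, Matrix.det_one] at this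
    exact IsUnit.of_mul_eq_one _ this
  · have h3 : (P.submatrix id e)ᵀ * A * (P.submatrix id e) = (Pᵀ * A * P).submatrix e e := by
      ext i j
      simp [Matrix.mul_apply, Matrix.transpose_apply]
    have h4 := congrArg Matrix.det h3
    rw [Matrix.det_mul, Matrix.det_mul, Matrix.det_transpose, Matrix.det_submatrix_equiv_self] at h4
    rw [← h4]
    ring

/-- `x` has rank `n` and a Gram matrix of determinant `d` -/
def HasDet (x : Iso R) (n : ℕ) (d : R) : Prop :=
  ∃ (ι : Type) (_ : Fintype ι) (_ : DecidableEq ι) (A : Matrix ι ι R),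
    cl A = x ∧ Fintype.card ι = n ∧ A.det = d

theorem hasDet_cl (A : Matrix ι ι R) : HasDet (cl A) (Fintype.card ι) A.det :=
  ⟨ι, _, _, A, rfl, rfl, rfl⟩

theorem HasDet.add {x y : Iso R} {m n : ℕ} {c d : R} (hx : HasDet x m c) (hy : HasDet y n d) :
    HasDet (x + y) (m + n) (c * d) := by
  obtain ⟨ι, _, _, A, rfl, rfl, rfl⟩ := hx
  obtain ⟨κ, _, _, B, rfl, rfl, rfl⟩ := hy
  refine ⟨ι ⊕ κ, inferInstance, inferInstance, fromBlocks A 0 0 B, ?_, ?_, ?_⟩
  · exact (cl_add A B).symm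
  · simp
  · exact Matrix.det_fromBlocks_zero₂₁ _ _ _

theorem HasDet.zero : HasDet (0 : Iso R) 0 1 := by
  refine ⟨Empty, inferInstance, inferInstance, 0, rfl, by simp, by simp⟩

theorem HasDet.nsmul {x : Iso R} {m : ℕ} {c : R} (hx : HasDet x m c) (k : ℕ) :
    HasDet (k • x) (k * m) (c ^ k) := by
  induction k with
  | zero => simpa using HasDet.zero
  | succ k ih =>
    rw [succ_nsmul, pow_succ, Nat.succ_mul]
    exact ih.add hx

theorem HasDet.unique [Nontrivial R] {x : Iso R} {m n : ℕ} {c d : R} (hx : HasDet x m c)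
    (hy : HasDet x n d) : m = n ∧ ∃ u : R, IsUnit u ∧ d = u ^ 2 * c := by
  obtain ⟨ι, _, _, A, rfl, rfl, rfl⟩ := hx
  obtain ⟨κ, _, _, B, h, rfl, rfl⟩ := hy
  have h' := (cl_eq.1 h).symm
  exact ⟨h'.card_eq, h'.det_eq⟩

end classes

end Pool.Agent.W2helper2.RLGenus
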