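import Pool.Agent.W2helper2.RLGenus1

set_option autoImplicit false

/-!
# Splitting, Hensel's lemma for quadratic polynomials, unimodular forms over `ℤ_p`, `p` odd
-/

open Matrix

namespace Pool.Agent.W2helper2.RLGenus

section split

variable {R : Type} [CommRing R]

variable {ι κ μ ν : Type} [Fintype ι] [Fintype κ] [Fintype μ] [Fintype ν]
  [DecidableEq ι] [DecidableEq κ] [DecidableEq μ] [DecidableEq ν]

/-- even forms -/
def EvenM (A : Matrix ι ι R) : Prop := ∃ B : Matrix ι ι R, A = B + Bᵀ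

omit [Fintype κ] [DecidableEq ι] [DecidableEq κ] in
theorem EvenM.congr {A : Matrix ι ι R} (h : EvenM A) (P : Matrix ι κ R) : EvenM (Pᵀ * A * P) := by
  obtain ⟨B, rfl⟩ := h
  refine ⟨Pᵀ * B * P, ?_⟩
  simp only [Matrix.transpose_mul, Matrix.transpose_transpose, Matrix.mul_add, Matrix.add_mul,
    Matrix.mul_assoc]

omit [Fintype ι] [Fintype κ] [DecidableEq ι] [DecidableEq κ] in
theorem EvenM.submatrix {A : Matrix ι ι R} (h : EvenM A) (f : κ → ι) :
    EvenM (A.submatrix f f) := by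
  obtain ⟨B, rfl⟩ := h
  exact ⟨B.submatrix f f, rfl⟩

theorem EvenM.of_cg {A : Matrix ι ι R} {B : Matrix κ κ R} (h : EvenM A) (h' : CgM A B) :
    EvenM B := by
  obtain ⟨P, Q, -, -, rfl⟩ := h'
  exact h.congr P

theorem symm_of_cg {A : Matrix ι ι R} {B : Matrix κ κ R} (h : Aᵀ = A) (h' : CgM A B) :
    Bᵀ = B := by
  obtain ⟨P, Q, -, -, rfl⟩ := h'
  rw [Matrix.transpose_mul, Matrix.transpose_mul, h, Matrix.transpose_transpose, Matrix.mul_assoc]

/-- splitting off an invertible block -/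
theorem split (e : κ ⊕ μ ≃ ι) (A : Matrix ι ι R) (hA : Aᵀ = A) (A' : Matrix κ κ R)
    (h : A.submatrix (e ∘ Sum.inl) (e ∘ Sum.inl) * A' = 1) :
    ∃ D : Matrix μ μ R, Dᵀ = D ∧ cl A = cl (A.submatrix (e ∘ Sum.inl) (e ∘ Sum.inl)) + cl D ∧
      (EvenM A → EvenM D) := by
  have hA' : ∀ i j, A i j = A j i := fun i j => by
    conv_lhs => rw [← hA]
    rfl
  have h1 : A.submatrix e e = fromBlocks (A.submatrix (e ∘ Sum.inl) (e ∘ Sum.inl))
      (A.submatrix (e ∘ Sum.inl) (e ∘ Sum.inr)) (A.submatrix (e ∘ Sum.inl) (e ∘ Sum.inr))ᵀ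
      (A.submatrix (e ∘ Sum.inr) (e ∘ Sum.inr)) := by
    ext (i | i) (j | j)
    · rfl
    · rfl
    · exact hA' _ _
    · rfl
  have h2 : (A.submatrix (e ∘ Sum.inl) (e ∘ Sum.inl))ᵀ = A.submatrix (e ∘ Sum.inl) (e ∘ Sum.inl) := by
    ext i j
    exact hA' _ _
  have h3 := cl_schur _ A' (A.submatrix (e ∘ Sum.inl) (e ∘ Sum.inr))
    (A.submatrix (e ∘ Sum.inr) (e ∘ Sum.inr)) h2 h
  rw [← h1, cl_reindex] at h3
  have h4 : CgM A (fromBlocks (A.submatrix (e ∘ Sum.inl) (e ∘ Sum.inl)) 0 0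
      (A.submatrix (e ∘ Sum.inr) (e ∘ Sum.inr) - (A.submatrix (e ∘ Sum.inl) (e ∘ Sum.inr))ᵀ * A' *
        A.submatrix (e ∘ Sum.inl) (e ∘ Sum.inr))) := cl_eq.1 h3
  refine ⟨_, ?_, h3, ?_⟩
  · have := symm_of_cg hA h4
    ext i j
    have h5 := congrFun (congrFun this (Sum.inr i)) (Sum.inr j)
    simpa using h5
  · intro hE
    have := (hE.of_cg h4).submatrix (Sum.inr : μ → κ ⊕ μ)
    exact this

/-- the form `<a>` -/
def one (a : R) : Iso R := cl (Matrix.of fun _ _ => a : Matrix Unit Unit R)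

/-- the form with Gram matrix `[2a b; b 2c]` -/
def pl (a b c : R) : Iso R := cl !![2 * a, b; b, 2 * c]

theorem hasDet_one (a : R) : HasDet (one a) 1 a := by
  have := hasDet_cl (Matrix.of fun _ _ => a : Matrix Unit Unit R)
  rw [Matrix.det_unique, Fintype.card_unit] at this
  exact this

theorem hasDet_pl (a b c : R) : HasDet (pl a b c) 2 (4 * a * c - b ^ 2) := by
  have := hasDet_cl (!![2 * a, b; b, 2 * c])
  rw [Matrix.det_fin_two_of, Fintype.card_fin] at this
  have h : 4 * a * c - b ^ 2 = 2 * a * (2 * c) - b * b := by ring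
  rw [h]
  exact this

/-- the map `Unit ⊕ {x // x ≠ i} ≃ ι` -/
noncomputable def eqv1 (i : ι) : Unit ⊕ {x // x ≠ i} ≃ ι :=
  Equiv.ofBijective (Sum.elim (fun _ => i) Subtype.val) (by
    constructor
    · rintro (a | a) (b | b) h
      · rfl
      · exact absurd h.symm b.2
      · exact absurd h a.2
      · exact congrArg _ (Subtype.ext h)
    · intro x
      by_cases h : x = i
      · exact ⟨Sum.inl (), h.symm⟩
      · exact ⟨Sum.inr ⟨x, h⟩, rfl⟩)

/-- the map `Fin 2 ⊕ {x // x ≠ i ∧ x ≠ j} ≃ ι` -/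
noncomputable def eqv2 (i j : ι) (hij : i ≠ j) : Fin 2 ⊕ {x // x ≠ i ∧ x ≠ j} ≃ ι :=
  Equiv.ofBijective (Sum.elim ![i, j] Subtype.val) (by
    constructor
    · rintro (a | a) (b | b) h
      · fin_cases a <;> fin_cases b
        · rfl
        · exact absurd h hij
        · exact absurd h.symm hij
        · rfl
      · fin_cases a
        · exact absurd h.symm b.2.1
        · exact absurd h.symm b.2.2
      · fin_cases b
        · exact absurd h a.2.1
        · exact absurd h a.2.2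
      · exact congrArg _ (Subtype.ext h)
    · intro x
      by_cases h : x = i
      · exact ⟨Sum.inl 0, h.symm⟩
      · by_cases h' : x = j
        · exact ⟨Sum.inl 1, h'.symm⟩
        · exact ⟨Sum.inr ⟨x, h, h'⟩, rfl⟩)

omit [Fintype ι] in
theorem eqv1_inl (i : ι) (a : Unit) : eqv1 i (Sum.inl a) = i := rfl

omit [Fintype ι] in
theorem eqv2_inl0 (i j : ι) (hij : i ≠ j) : eqv2 i j hij (Sum.inl 0) = i := rfl

omit [Fintype ι] in
theorem eqv2_inl1 (i j : ι) (hij : i ≠ j) : eqv2 i j hij (Sum.inl 1) = j := rfl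

theorem split1 (A : Matrix ι ι R) (hA : Aᵀ = A) (i : ι) (hi : IsUnit (A i i)) :
    ∃ D : Matrix {x // x ≠ i} {x // x ≠ i} R, Dᵀ = D ∧ cl A = one (A i i) + cl D := by
  obtain ⟨u, hu⟩ := hi
  obtain ⟨D, h1, h2, -⟩ := split (eqv1 i) A hA (Matrix.of fun _ _ => (↑u⁻¹ : R)) (by
    ext a b
    have : A i i * (↑u⁻¹ : R) = 1 := by rw [← hu]; exact u.mul_inv
    simpa [Matrix.mul_apply, eqv1_inl] using this)
  exact ⟨D, h1, h2⟩

theorem split2 (A : Matrix ι ι R) (hA : EvenM A) (i j : ι) (hij : i ≠ j) (hi : IsUnit (A i j)) 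
    (hdet : ∀ x y : R, IsUnit y → IsUnit (4 * x - y ^ 2)) :
    ∃ (a c : R) (D : Matrix {x // x ≠ i ∧ x ≠ j} {x // x ≠ i ∧ x ≠ j} R), EvenM D ∧
      cl A = pl a (A i j) c + cl D := by
  obtain ⟨B, hB⟩ := id hA
  have hs : Aᵀ = A := by
    rw [hB, Matrix.transpose_add, Matrix.transpose_transpose, add_comm]
  have hs' : A j i = A i j := congrFun (congrFun hs i) j
  have h1 : A.submatrix (eqv2 i j hij ∘ Sum.inl) (eqv2 i j hij ∘ Sum.inl) =
      !![2 * B i i, A i j; A i j, 2 * B j j] := by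
    ext a b
    fin_cases a <;> fin_cases b
    · simp [eqv2_inl0, hB]
      ring
    · simp [eqv2_inl0, eqv2_inl1]
    · simp [eqv2_inl0, eqv2_inl1, hs']
    · simp [eqv2_inl1, hB]
      ring
  have h2 : IsUnit (!![2 * B i i, A i j; A i j, 2 * B j j] : Matrix (Fin 2) (Fin 2) R).det := by
    rw [Matrix.det_fin_two_of]
    have := hdet (B i i * B j j) (A i j) hi
    convert this using 1
    ring
  obtain ⟨D, h3, h4, h5⟩ := split (eqv2 i j hij) A hs (!![2 * B i i, A i j; A i j, 2 * B j j])⁻¹ (by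
    rw [h1]
    exact Matrix.mul_nonsing_inv _ h2)
  rw [h1] at h4
  exact ⟨B i i, B j j, D, h5 hA, h4⟩

theorem card1 (i : ι) : Fintype.card {x // x ≠ i} + 1 = Fintype.card ι := by
  have := Fintype.card_congr (eqv1 i)
  rw [Fintype.card_sum] at this
  simp only [Fintype.card_unit] at this
  omega

theorem card2 (i j : ι) (hij : i ≠ j) :
    Fintype.card {x // x ≠ i ∧ x ≠ j} + 2 = Fintype.card ι := by
  have := Fintype.card_congr (eqv2 i j hij)
  rw [Fintype.card_sum] at this
  simp only [Fintype.card_fin] at this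
  omega

/-- scaling of a one dimensional form by the square of a unit -/
theorem one_sq (a u : R) (hu : IsUnit u) : one (u ^ 2 * a) = one a := by
  have := cl_congr_det (Matrix.of fun _ _ => a : Matrix Unit Unit R)
    (Matrix.of fun _ _ => u : Matrix Unit Unit R) (by rw [Matrix.det_unique]; exact hu)
  rw [one, one, ← this]
  congr 1
  ext i j
  simp [Matrix.mul_apply]
  ring

/-- `<a> + <b> = <1> + <ab>` if `1` is represented -/
theorem one_add_one (a b x y : R) (h : a * x ^ 2 + b * y ^ 2 = 1) :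
    one a + one b = one 1 + one (a * b) := by
  have h1 : ∀ a b : R, one a + one b = cl !![a, 0; 0, b] := by
    intro a b
    rw [one, one, cl_add]
    let e : Unit ⊕ Unit ≃ Fin 2 := Equiv.ofBijective (Sum.elim (fun _ => 0) (fun _ => 1)) (by
      constructor
      · rintro (a | a) (b | b) h
        · rfl
        · exact absurd (show (0 : Fin 2) = 1 from h) (by decide)
        · exact absurd (show (1 : Fin 2) = 0 from h) (by decide)
        · rfl
      · intro i
        fin_cases i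
        · exact ⟨Sum.inl (), rfl⟩
        · exact ⟨Sum.inr (), rfl⟩)
    refine cl_of_eq_submatrix _ _ e ?_
    rintro (i | i) (j | j) <;> rfl
  rw [h1, h1, ← cl_congr_det !![a, 0; 0, b] !![x, -(b * y); y, a * x] (by
    rw [Matrix.det_fin_two_of]
    have : x * (a * x) - -(b * y) * y = 1 := by rw [← h]; ring
    rw [this]
    exact isUnit_one)]
  congr 1
  ext i j
  fin_cases i <;> fin_cases j
  · simp [Matrix.mul_apply, Fin.sum_univ_two]
    linear_combination h
  · simp [Matrix.mul_apply, Fin.sum_univ_two]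
    ring
  · simp [Matrix.mul_apply, Fin.sum_univ_two]
    ring
  · simp [Matrix.mul_apply, Fin.sum_univ_two]
    linear_combination a * b * h

end split

section padic

variable {p : ℕ} [hp : Fact p.Prime]

theorem nonunit_iff (x : ℤ_[p]) : ¬ IsUnit x ↔ (p : ℤ_[p]) ∣ x := by
  rw [PadicInt.not_isUnit_iff, PadicInt.norm_lt_one_iff_dvd]

/-- Hensel's lemma for quadratic polynomials -/
theorem hens (r s t x0 : ℤ_[p]) (h : (p : ℤ_[p]) ∣ r * x0 ^ 2 + s * x0 + t)
    (h' : IsUnit (2 * r * x0 + s)) : ∃ x, r * x ^ 2 + s * x + t = 0 ∧ (p : ℤ_[p]) ∣ x - x0 := by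
  open Polynomial in
  let F : ℤ_[p][X] := C r * X ^ 2 + C s * X + C t
  have e1 : aeval x0 F = r * x0 ^ 2 + s * x0 + t := by simp [F]
  have e2 : aeval x0 (derivative F) = 2 * r * x0 + s := by
    simp [F]
    ring
  have n1 : ‖aeval x0 F‖ < ‖aeval x0 (derivative F)‖ ^ 2 := by
    rw [e1, e2, PadicInt.isUnit_iff.1 h', one_pow]
    exact (PadicInt.norm_lt_one_iff_dvd _).2 h
  obtain ⟨z, hz, hz', -⟩ := hensels_lemma n1
  refine ⟨z, by simpa [F] using hz, ?_⟩
  rw [e2, PadicInt.isUnit_iff.1 h'] at hz'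
  exact (PadicInt.norm_lt_one_iff_dvd _).1 hz'

theorem two_unit (hp2 : p ≠ 2) : IsUnit (2 : ℤ_[p]) := by
  by_contra h
  rw [PadicInt.not_isUnit_iff] at h
  have h1 : ‖((2 : ℤ) : ℤ_[p])‖ < 1 := by
    push_cast
    exact h
  rw [PadicInt.norm_int_lt_one_iff_dvd] at h1
  have h2 : p ∣ 2 := by exact_mod_cast h1
  exact hp2 ((Nat.prime_dvd_prime_iff_eq hp.out Nat.prime_two).1 h2)

theorem toZ_eq_zero (x : ℤ_[p]) : PadicInt.toZMod x = 0 ↔ (p : ℤ_[p]) ∣ x := by
  rw [← RingHom.mem_ker, PadicInt.ker_toZMod, IsLocalRing.mem_maximalIdeal, mem_nonunits_iff,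
    nonunit_iff]

theorem toZ_surj (x : ZMod p) : ∃ y : ℤ_[p], PadicInt.toZMod y = x := by
  refine ⟨((ZMod.val x : ℕ) : ℤ_[p]), ?_⟩
  rw [map_natCast, ZMod.natCast_zmod_val]

/-- unit binary forms represent one -/
theorem rep_one (hp2 : p ≠ 2) (a b : ℤ_[p]) (ha : IsUnit a) (hb : IsUnit b) :
    ∃ x y, a * x ^ 2 + b * y ^ 2 = 1 := by
  open Polynomial in
  have ha' : PadicInt.toZMod a ≠ 0 := by
    rw [Ne, toZ_eq_zero, ← nonunit_iff, not_not]
    exact ha
  have hb' : PadicInt.toZMod b ≠ 0 := by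
    rw [Ne, toZ_eq_zero, ← nonunit_iff, not_not]
    exact hb
  let f : (ZMod p)[X] := C (PadicInt.toZMod a) * X ^ 2
  let g : (ZMod p)[X] := C (PadicInt.toZMod b) * X ^ 2 + C (-1)
  have hodd : Fintype.card (ZMod p) % 2 = 1 := by
    rw [ZMod.card]
    rcases hp.out.eq_two_or_odd with h | h
    · exact absurd h hp2
    · exact h
  obtain ⟨x', y', hxy⟩ := FiniteField.exists_root_sum_quadratic (f := f) (g := g)
    (by simp only [f]; exact Polynomial.degree_C_mul_X_pow 2 ha')
    (by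
      simp only [g]
      rw [Polynomial.degree_add_C (by rw [Polynomial.degree_C_mul_X_pow 2 hb']; norm_num)]
      exact Polynomial.degree_C_mul_X_pow 2 hb') hodd
  obtain ⟨x, rfl⟩ := toZ_surj x'
  obtain ⟨y, rfl⟩ := toZ_surj y'
  have h1 : PadicInt.toZMod (a * x ^ 2 + b * y ^ 2 - 1) = 0 := by
    simp only [map_sub, map_add, map_mul, map_pow, map_one]
    simp only [f, g, eval_add, eval_mul, eval_C, eval_pow, eval_X] at hxy
    linear_combination hxy
  rw [toZ_eq_zero] at h1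
  have h2 := two_unit (p := p) hp2
  by_cases hx : IsUnit x
  · obtain ⟨z, hz, -⟩ := hens a 0 (b * y ^ 2 - 1) x (by
      convert h1 using 1
      ring) (by
      rw [add_zero]
      exact (h2.mul ha).mul hx)
    exact ⟨z, y, by linear_combination hz⟩
  · by_cases hy : IsUnit y
    · obtain ⟨z, hz, -⟩ := hens b 0 (a * x ^ 2 - 1) y (by
        convert h1 using 1
        ring) (by
        rw [add_zero]
        exact (h2.mul hb).mul hy)
      exact ⟨x, z, by linear_combination hz⟩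
    · exfalso
      rw [nonunit_iff] at hx hy
      obtain ⟨x, rfl⟩ := hx
      obtain ⟨y, rfl⟩ := hy
      have h3 : (p : ℤ_[p]) ∣ 1 := by
        obtain ⟨k, hk⟩ := h1
        exact ⟨a * x * (p * x) + b * y * (p * y) - k, by linear_combination -hk⟩
      rw [← nonunit_iff] at h3
      exact h3 isUnit_one

theorem exists_unit_entry {ι : Type} [Fintype ι] [DecidableEq ι] [Nonempty ι]
    (A : Matrix ι ι ℤ_[p]) (h : IsUnit A.det) : ∃ i j, IsUnit (A i j) := by
  by_contra h1
  push Not at h1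
  have h2 : A.map (PadicInt.toZMod) = 0 := by
    ext i j
    simpa using (toZ_eq_zero _).2 ((nonunit_iff _).1 (h1 i j))
  have h3 : PadicInt.toZMod A.det = 0 := by
    rw [RingHom.map_det, RingHom.mapMatrix_apply, h2, Matrix.det_zero]
  rw [toZ_eq_zero, ← nonunit_iff] at h3
  exact h3 h

/-- a form with unit determinant over `ℤ_p`, `p` odd, splits off a unit -/
theorem split_unit (hp2 : p ≠ 2) {ι : Type} [Fintype ι] [DecidableEq ι] [Nonempty ι]
    (A : Matrix ι ι ℤ_[p]) (hA : Aᵀ = A) (h : IsUnit A.det) :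
    ∃ (i : ι) (a : ℤ_[p]) (D : Matrix {x // x ≠ i} {x // x ≠ i} ℤ_[p]), IsUnit a ∧ Dᵀ = D ∧
      cl A = one a + cl D := by
  by_cases h1 : ∃ i, IsUnit (A i i)
  · obtain ⟨i, hi⟩ := h1
    obtain ⟨D, hD, hD'⟩ := split1 A hA i hi
    exact ⟨i, _, D, hi, hD, hD'⟩
  · push Not at h1
    obtain ⟨i, j, hij⟩ := exists_unit_entry A h
    have hne : j ≠ i := by
      rintro rfl
      exact h1 _ hij
    have hs : A j i = A i j := congrFun (congrFun hA i) j
    set P : Matrix ι ι ℤ_[p] := Matrix.transvection j i 1 with hP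
    have hd : P.det = 1 := Matrix.det_transvection_of_ne _ _ hne _
    have hent : (Pᵀ * A * P) i i = A i i + 2 * A i j + A j j := by
      simp only [hP, Matrix.transvection, Matrix.transpose_add, Matrix.transpose_one,
        Matrix.transpose_single, Matrix.add_mul, Matrix.mul_add, Matrix.one_mul, Matrix.mul_one,
        Matrix.add_apply]
      simp [hs]
      ring
    have hu : IsUnit ((Pᵀ * A * P) i i) := by
      by_contra hc
      rw [hent, nonunit_iff] at hc
      have h3 := (nonunit_iff _).1 (h1 i)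
      have h4 := (nonunit_iff _).1 (h1 j)
      have h5 : (p : ℤ_[p]) ∣ 2 * A i j := by
        have := dvd_sub (dvd_sub hc h3) h4
        convert this using 1
        ring
      rw [← nonunit_iff] at h5
      exact h5 ((two_unit hp2).mul hij)
    have hs' : (Pᵀ * A * P)ᵀ = Pᵀ * A * P := by
      rw [Matrix.transpose_mul, Matrix.transpose_mul, hA, Matrix.transpose_transpose,
        Matrix.mul_assoc]
    obtain ⟨D, hD, hD'⟩ := split1 _ hs' i hu
    refine ⟨i, _, D, hu, hD, ?_⟩
    rw [← hD', cl_congr_det A P (by rw [hd]; exact isUnit_one)]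

/-- the classification of unimodular forms over `ℤ_p`, `p` odd -/
theorem class_odd (hp2 : p ≠ 2) (n : ℕ) : ∀ {ι : Type} [Fintype ι] [DecidableEq ι]
    (A : Matrix ι ι ℤ_[p]), Aᵀ = A → IsUnit A.det → Fintype.card ι = n + 1 →
    ∃ d, IsUnit d ∧ cl A = n • one 1 + one d := by
  induction n with
  | zero =>
    intro ι _ _ A hA h hc
    have : Nonempty ι := by
      rw [← Fintype.card_pos_iff]
      omega
    obtain ⟨i, a, D, ha, hD, hD'⟩ := split_unit hp2 A hA h
    refine ⟨a, ha, ?_⟩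
    have h1 := card1 i
    have h2 : IsEmpty {x // x ≠ i} := by
      rw [← Fintype.card_eq_zero_iff]
      omega
    rw [hD', cl_empty D, zero_smul, add_zero, zero_add]
  | succ n ih =>
    intro ι _ _ A hA h hc
    have : Nonempty ι := by
      rw [← Fintype.card_pos_iff]
      omega
    obtain ⟨i, a, D, ha, hD, hD'⟩ := split_unit hp2 A hA h
    have h1 := card1 i
    have h2 : IsUnit D.det := by
      have h3 := (hasDet_one a).add (hasDet_cl D)
      rw [← hD'] at h3
      obtain ⟨-, u, hu, h4⟩ := (hasDet_cl A).unique h3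
      have h5 : IsUnit (a * D.det) := by
        rw [h4]
        exact (hu.pow 2).mul h
      exact (IsUnit.mul_iff.1 h5).2
    obtain ⟨d, hd, h3⟩ := ih D hD h2 (by omega)
    obtain ⟨x, y, hxy⟩ := rep_one hp2 a d ha hd
    refine ⟨a * d, ha.mul hd, ?_⟩
    rw [hD', h3, succ_nsmul]
    calc one a + (n • one 1 + one d) = n • one 1 + (one a + one d) := by abel
      _ = n • one 1 + (one 1 + one (a * d)) := by rw [one_add_one a d x y hxy]
      _ = _ := by abel

/-- two unimodular forms of the same rank and determinant are isometric over `ℤ_p`, `p` odd -/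
theorem odd_unique (hp2 : p ≠ 2) {ι κ : Type} [Fintype ι] [DecidableEq ι] [Fintype κ]
    [DecidableEq κ] (A : Matrix ι ι ℤ_[p]) (B : Matrix κ κ ℤ_[p]) (hA : Aᵀ = A) (hB : Bᵀ = B)
    (h : IsUnit A.det) (n : ℕ) (hι : Fintype.card ι = n + 1) (hκ : Fintype.card κ = n + 1)
    (hd : A.det = B.det) : cl A = cl B := by
  obtain ⟨d, hd1, h1⟩ := class_odd hp2 n A hA h hι
  obtain ⟨d', hd1', h1'⟩ := class_odd hp2 n B hB (by rwa [← hd]) hκ
  have h2 := (HasDet.nsmul (hasDet_one (1 : ℤ_[p])) n).add (hasDet_one d)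
  have h2' := (HasDet.nsmul (hasDet_one (1 : ℤ_[p])) n).add (hasDet_one d')
  rw [← h1] at h2
  rw [← h1'] at h2'
  obtain ⟨-, u, hu, h3⟩ := h2.unique (hasDet_cl A)
  obtain ⟨-, u', hu', h3'⟩ := (hasDet_cl B).unique h2'
  rw [one_pow, one_mul] at h3 h3'
  rw [h1, h1', h3', ← hd, h3, ← mul_assoc, ← mul_pow, one_sq _ _ (hu'.mul hu)]

end padic

end Pool.Agent.W2helper2.RLGenus
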