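import Pool.Agent.W2helper2.RLGenus2

set_option autoImplicit false

/-!
# Even forms over `ℤ_2`
-/

open Matrix

namespace Pool.Agent.W2helper2.RLGenus

section plane

theorem nonunit_iff2 (x : ℤ_[2]) : ¬ IsUnit x ↔ (2 : ℤ_[2]) ∣ x := by
  have := nonunit_iff (p := 2) x
  simpa using this

theorem not_two_dvd_one : ¬ (2 : ℤ_[2]) ∣ 1 := by
  rw [← nonunit_iff2, not_not]
  exact isUnit_one

theorem odd_of_unit (x : ℤ_[2]) (h : IsUnit x) : (2 : ℤ_[2]) ∣ x - 1 := by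
  have h1 : ∀ y : ZMod 2, y ≠ 0 → y = 1 := by decide
  have h2 : PadicInt.toZMod x ≠ 0 := by
    rw [Ne, toZ_eq_zero, ← nonunit_iff, not_not]
    exact h
  have h3 : PadicInt.toZMod (x - 1) = 0 := by
    rw [map_sub, map_one, h1 _ h2, sub_self]
  rw [toZ_eq_zero] at h3
  simpa using h3

theorem unit_of_odd (x : ℤ_[2]) (h : (2 : ℤ_[2]) ∣ x - 1) : IsUnit x := by
  by_contra h1
  rw [nonunit_iff2] at h1
  exact not_two_dvd_one (by simpa using dvd_sub h1 h)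

theorem unit_add_even (x y : ℤ_[2]) (h : IsUnit y) : IsUnit (2 * x + y) := by
  by_contra h1
  rw [nonunit_iff2] at h1
  have h2 : (2 : ℤ_[2]) ∣ y := by
    obtain ⟨k, hk⟩ := h1
    exact ⟨k - x, by linear_combination hk⟩
  rw [← nonunit_iff2] at h2
  exact h2 h

theorem hens2 (r s t x0 : ℤ_[2]) (h : (2 : ℤ_[2]) ∣ r * x0 ^ 2 + s * x0 + t)
    (h' : IsUnit s) : ∃ x, r * x ^ 2 + s * x + t = 0 ∧ (2 : ℤ_[2]) ∣ x - x0 := by
  obtain ⟨x, h1, h2⟩ := hens (p := 2) r s t x0 (by simpa using h) (by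
    rw [mul_assoc]
    exact unit_add_even _ _ h')
  exact ⟨x, h1, by simpa using h2⟩

theorem pl_swap (a b c : ℤ_[2]) : pl a b c = pl c b a := by
  refine cl_of_eq_submatrix _ _ (Equiv.swap (0 : Fin 2) 1) ?_
  intro i j
  fin_cases i <;> fin_cases j <;> simp

/-- congruence for planes -/
theorem pl_congr (a b c a' b' c' x y z w : ℤ_[2]) (hu : IsUnit (x * w - y * z))
    (h1 : 2 * a * x ^ 2 + 2 * b * x * z + 2 * c * z ^ 2 = 2 * a')
    (h2 : 2 * a * x * y + b * (x * w + y * z) + 2 * c * z * w = b')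
    (h3 : 2 * a * y ^ 2 + 2 * b * y * w + 2 * c * w ^ 2 = 2 * c') :
    pl a b c = pl a' b' c' := by
  rw [pl, pl, ← cl_congr_det !![2 * a, b; b, 2 * c] !![x, y; z, w] (by
    rw [Matrix.det_fin_two_of]
    exact hu)]
  congr 1
  ext i j
  fin_cases i <;> fin_cases j
  · simp [Matrix.mul_apply, Fin.sum_univ_two]
    linear_combination h1
  · simp [Matrix.mul_apply, Fin.sum_univ_two]
    linear_combination h2
  · simp [Matrix.mul_apply, Fin.sum_univ_two]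
    linear_combination h2
  · simp [Matrix.mul_apply, Fin.sum_univ_two]
    linear_combination h3

theorem plane_U (a b c : ℤ_[2]) (hb : IsUnit b) (ha : (2 : ℤ_[2]) ∣ a) : pl a b c = pl 0 1 0 := by
  obtain ⟨ub, hub⟩ := id hb
  obtain ⟨a1, rfl⟩ := ha
  obtain ⟨x, hx, -⟩ := hens2 (2 * a1) b c (-c * (↑ub⁻¹ : ℤ_[2])) (by
    have : b * (↑ub⁻¹ : ℤ_[2]) = 1 := by rw [← hub]; exact ub.mul_inv
    exact ⟨a1 * (-c * (↑ub⁻¹ : ℤ_[2])) ^ 2, by linear_combination -c * this⟩) hb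
  obtain ⟨d, hd⟩ := unit_add_even (2 * a1 * x) b hb
  have hd' : (2 * (2 * a1 * x) + b) * (↑d⁻¹ : ℤ_[2]) = 1 := by rw [← hd]; exact d.mul_inv
  refine pl_congr _ _ _ _ _ _ x ((↑d⁻¹ : ℤ_[2]) - 2 * a1 * (↑d⁻¹ : ℤ_[2]) ^ 2 * x) 1
    (-(2 * a1 * (↑d⁻¹ : ℤ_[2]) ^ 2)) ?_ ?_ ?_ ?_
  · have : x * -(2 * a1 * (↑d⁻¹ : ℤ_[2]) ^ 2) - ((↑d⁻¹ : ℤ_[2]) - 2 * a1 * (↑d⁻¹ : ℤ_[2]) ^ 2 * x) * 1 =
      -(↑d⁻¹ : ℤ_[2]) := by ring
    rw [this]
    exact (Units.isUnit _).neg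
  · linear_combination 2 * hx
  · linear_combination hd' - 2 * (2 * a1) * (↑d⁻¹ : ℤ_[2]) ^ 2 * hx
  · linear_combination -2 * (2 * a1) * (↑d⁻¹ : ℤ_[2]) ^ 2 * hd' +
      2 * (2 * a1) ^ 2 * (↑d⁻¹ : ℤ_[2]) ^ 4 * hx

theorem plane_V (a b c : ℤ_[2]) (ha : IsUnit a) (hb : IsUnit b) (hc : IsUnit c) :
    pl a b c = pl 1 1 1 := by
  obtain ⟨x, hx, -⟩ := hens2 a b (c - 1) 0 (by simpa using odd_of_unit c hc) hb
  obtain ⟨d, hd⟩ := unit_add_even (a * x) b hb
  have hd' : (2 * (a * x) + b) * (↑d⁻¹ : ℤ_[2]) = 1 := by rw [← hd]; exact d.mul_inv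
  have h1 : pl a b c = pl 1 1 (a * (↑d⁻¹ : ℤ_[2]) ^ 2) := by
    refine pl_congr _ _ _ _ _ _ x (↑d⁻¹ : ℤ_[2]) 1 0 ?_ ?_ ?_ ?_
    · have : x * 0 - (↑d⁻¹ : ℤ_[2]) * 1 = -(↑d⁻¹ : ℤ_[2]) := by ring
      rw [this]
      exact (Units.isUnit _).neg
    · linear_combination 2 * hx
    · linear_combination hd'
    · ring
  rw [h1]
  have hu : IsUnit (a * (↑d⁻¹ : ℤ_[2]) ^ 2) := ha.mul ((Units.isUnit _).pow 2)
  set e := a * (↑d⁻¹ : ℤ_[2]) ^ 2
  obtain ⟨y, hy, -⟩ := hens2 (4 * e - 1) (1 - 4 * e) (e - 1) 0 (by simpa using odd_of_unit e hu) (by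
    have := unit_add_even (-(2 * e)) 1 isUnit_one
    convert this using 1
    ring)
  refine pl_congr _ _ _ _ _ _ 1 y 0 (1 - 2 * y) ?_ ?_ ?_ ?_
  · have := unit_add_even (-y) 1 isUnit_one
    convert this using 1
    ring
  · ring
  · ring
  · linear_combination 2 * hy

/-- `V + V = U + U` -/
theorem VV : pl (1 : ℤ_[2]) 1 1 + pl 1 1 1 = pl 0 1 0 + pl 0 1 0 := by
  obtain ⟨w, hw, -⟩ := hens2 1 1 2 0 (by simp) isUnit_one
  obtain ⟨s', hs⟩ : IsUnit (7 : ℤ_[2]) := unit_of_odd 7 ⟨3, by norm_num⟩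
  have hs' : 7 * (↑s'⁻¹ : ℤ_[2]) = 1 := by rw [← hs]; exact s'.mul_inv
  set s : ℤ_[2] := (↑s'⁻¹ : ℤ_[2]) with hsdef
  have hsu : IsUnit s := Units.isUnit _
  have h1 : pl (1 : ℤ_[2]) 1 1 + pl 1 1 1 = pl 0 1 1 + pl (12 * s) (9 * s) (3 * s) := by
    rw [pl, pl, pl, cl_add, cl_add]
    set P : Matrix (Fin 2 ⊕ Fin 2) (Fin 2 ⊕ Fin 2) ℤ_[2] :=
      fromBlocks !![1, 0; 0, 1] !![-2, 0; 1, 0] !![w, 0; 1, 0]
        !![-3 * (2 * w + 1) * s, (3 * w - 2) * s; 0, 1] with hP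
    have h2 : Pᵀ * fromBlocks !![2 * 1, (1 : ℤ_[2]); 1, 2 * 1] 0 0 !![2 * 1, (1 : ℤ_[2]); 1, 2 * 1] * P =
        fromBlocks !![2 * 0, (1 : ℤ_[2]); 1, 2 * 1] 0 0 !![2 * (12 * s), 9 * s; 9 * s, 2 * (3 * s)] := by
      rw [hP, fromBlocks_transpose, fromBlocks_multiply, fromBlocks_multiply]
      congr 1
      · ext i j
        fin_cases i <;> fin_cases j
        · simp [Matrix.mul_apply, Fin.sum_univ_two]
          linear_combination 2 * hw
        · simp [Matrix.mul_apply, Fin.sum_univ_two]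
        · simp [Matrix.mul_apply, Fin.sum_univ_two]
        · simp [Matrix.mul_apply, Fin.sum_univ_two]
      · ext i j
        fin_cases i <;> fin_cases j
        · simp [Matrix.mul_apply, Fin.sum_univ_two]
          linear_combination -12 * s * hw + 3 * hs'
        · simp [Matrix.mul_apply, Fin.sum_univ_two]
          linear_combination 6 * s * hw - (w + 2) * hs'
        · simp [Matrix.mul_apply, Fin.sum_univ_two]
        · simp [Matrix.mul_apply, Fin.sum_univ_two]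
      · ext i j
        fin_cases i <;> fin_cases j
        · simp [Matrix.mul_apply, Fin.sum_univ_two]
          linear_combination -12 * s * hw + 3 * hs'
        · simp [Matrix.mul_apply, Fin.sum_univ_two]
        · simp [Matrix.mul_apply, Fin.sum_univ_two]
          linear_combination 6 * s * hw - (w + 2) * hs'
        · simp [Matrix.mul_apply, Fin.sum_univ_two]
      · ext i j
        fin_cases i <;> fin_cases j
        · simp [Matrix.mul_apply, Fin.sum_univ_two]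
          linear_combination 72 * s ^ 2 * hw + (-18 * s - 6) * hs'
        · simp [Matrix.mul_apply, Fin.sum_univ_two]
          linear_combination -36 * s ^ 2 * hw + (6 * w * s + 12 * s) * hs'
        · simp [Matrix.mul_apply, Fin.sum_univ_two]
          linear_combination -36 * s ^ 2 * hw + (6 * w * s + 12 * s) * hs'
        · simp [Matrix.mul_apply, Fin.sum_univ_two]
          linear_combination 18 * s ^ 2 * hw + (-6 * w * s - 4 * s - 2) * hs'
    rw [← h2, cl_congr_det]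
    have h3 := congrArg Matrix.det h2
    rw [Matrix.det_mul, Matrix.det_mul, Matrix.det_transpose, Matrix.det_fromBlocks_zero₂₁,
      Matrix.det_fromBlocks_zero₂₁, Matrix.det_fin_two_of, Matrix.det_fin_two_of,
      Matrix.det_fin_two_of] at h3
    have h4 : IsUnit ((2 * 0 * (2 * 1) - (1 : ℤ_[2]) * 1) *
        (2 * (12 * s) * (2 * (3 * s)) - 9 * s * (9 * s))) := by
      have h5 : (2 * 0 * (2 * 1) - (1 : ℤ_[2]) * 1) *
        (2 * (12 * s) * (2 * (3 * s)) - 9 * s * (9 * s)) = -(7 * 9) * s ^ 2 := by ring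
      rw [h5]
      exact (IsUnit.mul (unit_of_odd 7 ⟨3, by norm_num⟩) (unit_of_odd 9 ⟨4, by norm_num⟩)).neg.mul
        (hsu.pow 2)
    rw [← h3] at h4
    exact (IsUnit.mul_iff.1 h4).2
  rw [h1, plane_U 0 1 1 isUnit_one (by simp), plane_U (12 * s) (9 * s) (3 * s)
    (IsUnit.mul (unit_of_odd 9 ⟨4, by norm_num⟩) hsu) ⟨6 * s, by ring⟩]

theorem hdet2 (x y : ℤ_[2]) (h : IsUnit y) : IsUnit (4 * x - y ^ 2) := by
  have := unit_add_even (2 * x) (-y ^ 2) (h.pow 2).neg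
  convert this using 1
  ring

/-- the structure of even forms over `ℤ_2` -/
theorem even_struct (n : ℕ) : ∀ {ι : Type} [Fintype ι] [DecidableEq ι] (A : Matrix ι ι ℤ_[2]),
    EvenM A → Fintype.card ι = n → ∃ (k l : ℕ) (κ : Type) (_ : Fintype κ) (_ : DecidableEq κ)
      (C : Matrix κ κ ℤ_[2]), Cᵀ = C ∧ cl A = k • pl 0 1 0 + l • pl 1 1 1 + cl ((2 : ℤ_[2]) • C) := by
  induction n using Nat.strong_induction_on with
  | _ n ih =>
  intro ι _ _ A hA hc
  by_cases h : ∃ i j, IsUnit (A i j)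
  · obtain ⟨i, j, hij⟩ := h
    have hne : i ≠ j := by
      rintro rfl
      obtain ⟨B, rfl⟩ := hA
      exact (nonunit_iff2 _).2 ⟨B i i, by simp; ring⟩ hij
    obtain ⟨a, c, D, hD, h1⟩ := split2 A hA i j hne hij hdet2
    have h2 := card2 i j hne
    obtain ⟨k, l, κ, _, _, C, hC, h3⟩ := ih _ (by omega) D hD rfl
    by_cases ha : IsUnit a
    · by_cases hc : IsUnit c
      · refine ⟨k, l + 1, κ, inferInstance, inferInstance, C, hC, ?_⟩
        rw [h1, h3, plane_V _ _ _ ha hij hc, succ_nsmul]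
        abel
      · refine ⟨k + 1, l, κ, inferInstance, inferInstance, C, hC, ?_⟩
        rw [h1, h3, pl_swap, plane_U _ _ _ hij ((nonunit_iff2 _).1 hc), succ_nsmul]
        abel
    · refine ⟨k + 1, l, κ, inferInstance, inferInstance, C, hC, ?_⟩
      rw [h1, h3, plane_U _ _ _ hij ((nonunit_iff2 _).1 ha), succ_nsmul]
      abel
  · push Not at h
    have h1 : ∀ i j, ∃ c, A i j = 2 * c := fun i j => (nonunit_iff2 _).1 (h i j)
    choose C hC using h1
    have hs : ∀ i j, A i j = A j i := by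
      obtain ⟨B, rfl⟩ := hA
      intro i j
      simp [add_comm]
    refine ⟨0, 0, ι, inferInstance, inferInstance, Matrix.of C, ?_, ?_⟩
    · ext i j
      have := hs i j
      rw [hC, hC] at this
      exact (mul_left_cancel₀ two_ne_zero this).symm
    · rw [zero_smul, zero_smul, zero_add, zero_add]
      congr 1
      ext i j
      simp [hC]

/-- reducing the number of `V` -/
theorem reduce (k l : ℕ) : ∃ k' : ℕ, (k • pl (0 : ℤ_[2]) 1 0 + l • pl 1 1 1 = k' • pl 0 1 0 ∧ k' = k + l) ∨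
    (k • pl (0 : ℤ_[2]) 1 0 + l • pl 1 1 1 = k' • pl 0 1 0 + pl 1 1 1 ∧ k' + 1 = k + l) := by
  induction l with
  | zero => exact ⟨k, Or.inl ⟨by simp, by simp⟩⟩
  | succ l ih =>
    obtain ⟨k', h | h⟩ := ih
    · refine ⟨k', Or.inr ⟨?_, by omega⟩⟩
      rw [succ_nsmul, ← add_assoc, h.1]
    · refine ⟨k' + 2, Or.inl ⟨?_, by omega⟩⟩
      rw [succ_nsmul, ← add_assoc, h.1, add_assoc, VV, add_nsmul, two_nsmul]

end plane

end Pool.Agent.W2helper2.RLGenus
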