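import Pool.Agent.W2helper2.RLGenus3
import Pool.Agent.Y813.RL.Stm

set_option autoImplicit false

/-!
# Positive definite forms, the forms `E_8` and `D_4`, from classes to isometries
-/

open Matrix

namespace Pool.Agent.W2helper2.RLGenus

section pd

variable {ι κ : Type} [Fintype ι] [Fintype κ] [DecidableEq ι] [DecidableEq κ]

/-- positive definite real matrices -/
def PD (A : Matrix ι ι ℝ) : Prop := ∀ x : ι → ℝ, x ≠ 0 → 0 < x ⬝ᵥ A *ᵥ x

theorem PD.of_cg {A : Matrix ι ι ℝ} {B : Matrix κ κ ℝ} (h : PD A) (h' : CgM A B) : PD B := by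
  obtain ⟨P, Q, h1, h2, rfl⟩ := h'
  intro x hx
  have h3 : P *ᵥ x ≠ 0 := by
    intro h4
    apply hx
    have := congrArg (fun y => Q *ᵥ y) h4
    simpa [Matrix.mulVec_mulVec, h2] using this
  have := h _ h3
  rw [← Matrix.mulVec_mulVec, ← Matrix.mulVec_mulVec, Matrix.dotProduct_mulVec,
    Matrix.vecMul_transpose]
  exact this

omit [DecidableEq ι] [DecidableEq κ] in
theorem PD.right {A : Matrix ι ι ℝ} {D : Matrix κ κ ℝ} (h : PD (fromBlocks A 0 0 D)) : PD D := by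
  intro x hx
  have h1 : (Sum.elim 0 x : ι ⊕ κ → ℝ) ≠ 0 := by
    intro h2
    apply hx
    ext i
    exact congrFun h2 (Sum.inr i)
  have := h _ h1
  simpa [Matrix.fromBlocks_mulVec] using this

theorem pd_cl (n : ℕ) : ∀ {ι : Type} [Fintype ι] [DecidableEq ι] (A : Matrix ι ι ℝ), Aᵀ = A →
    PD A → Fintype.card ι = n → cl A = n • one 1 := by
  induction n with
  | zero =>
    intro ι _ _ A _ _ hc
    have : IsEmpty ι := Fintype.card_eq_zero_iff.1 hc
    rw [cl_empty, zero_smul]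
  | succ n ih =>
    intro ι _ _ A hA h hc
    have : Nonempty ι := by
      rw [← Fintype.card_pos_iff]
      omega
    obtain ⟨i⟩ := this
    have hi : 0 < A i i := by
      have := h (Pi.single i 1) (by simp)
      simpa using this
    obtain ⟨D, hD, hD'⟩ := split1 A hA i (isUnit_iff_ne_zero.2 hi.ne')
    have h1 : PD D := by
      have h2 := hD'
      rw [one, cl_add] at h2
      exact (h.of_cg (cl_eq.1 h2)).right
    have h2 := card1 i
    have h3 : one (A i i) = one 1 := by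
      have := one_sq (1 : ℝ) (Real.sqrt (A i i)) (isUnit_iff_ne_zero.2 (Real.sqrt_pos.2 hi).ne')
      rwa [Real.sq_sqrt hi.le, mul_one] at this
    rw [hD', ih D hD h1 (by omega), h3, succ_nsmul]
    abel

end pd

/-! ### From classes to isometries -/

section iso

open Pool.Agent.Y813.RL

theorem bf_eq {ι R : Type} [Fintype ι] [CommRing R] (B : Matrix ι ι ℤ) (x y : ι → R) :
    bf B x y = x ⬝ᵥ (B.map (Int.cast : ℤ → R)) *ᵥ y := by
  simp [bf, dotProduct, Matrix.mulVec, Finset.mul_sum, mul_assoc]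

theorem isom_of_cl {ι κ R : Type} [Fintype ι] [Fintype κ] [DecidableEq ι] [DecidableEq κ]
    [CommRing R] (B : Matrix ι ι ℤ) (C : Matrix κ κ ℤ)
    (h : cl (B.map (Int.cast : ℤ → R)) = cl (C.map (Int.cast : ℤ → R))) :
    ∃ e : (ι → R) ≃ₗ[R] (κ → R), ∀ x y, bf C (e x) (e y) = bf B x y := by
  obtain ⟨P, Q, h1, h2, h3⟩ := cl_eq.1 h.symm
  refine ⟨Matrix.toLin'OfInv h2 h1, ?_⟩
  intro x y
  have h4 : ∀ z, Matrix.toLin'OfInv h2 h1 z = P *ᵥ z := fun z => rfl
  rw [h4, h4, bf_eq, bf_eq, ← h3, ← Matrix.mulVec_mulVec, ← Matrix.mulVec_mulVec,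
    Matrix.dotProduct_mulVec x, Matrix.vecMul_transpose]

end iso

/-! ### `E_8` and `D_4` -/

section ED

/-- twice the simple roots of `E_8` -/
def rootsE : Matrix (Fin 8) (Fin 8) ℤ :=
  !![ 1, 2, -2, 0, 0, 0, 0, 0;
      -1, 2, 2, -2, 0, 0, 0, 0;
      -1, 0, 0, 2, -2, 0, 0, 0;
      -1, 0, 0, 0, 2, -2, 0, 0;
      -1, 0, 0, 0, 0, 2, -2, 0;
      -1, 0, 0, 0, 0, 0, 2, -2;
      -1, 0, 0, 0, 0, 0, 0, 2;
      1, 0, 0, 0, 0, 0, 0, 0]

theorem rootsE_mul : rootsEᵀ * rootsE = (4 : ℤ) • CartanMatrix.E₈ := by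
  decide +kernel

/-- the simple roots of `D_4` -/
def rootsD : Matrix (Fin 4) (Fin 4) ℤ :=
  !![ 1, 0, 0, 0;
      -1, 1, 0, 0;
      0, -1, 1, 1;
      0, 0, -1, 1]

theorem rootsD_mul : rootsDᵀ * rootsD = CartanMatrix.D 4 := by
  decide +kernel

theorem D4_det : (CartanMatrix.D 4).det = 4 := by
  rw [CartanMatrix.D_four]
  simp only [norm_det]

theorem E8_real : cl (CartanMatrix.E₈.map (Int.cast : ℤ → ℝ)) = 8 • one 1 := by
  refine pd_cl 8 _ ?_ ?_ (by simp)
  · rw [← Matrix.transpose_map, CartanMatrix.E₈_transpose]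
  · have h1 : (CartanMatrix.E₈.map (Int.cast : ℤ → ℝ)) =
        ((1 / 2 : ℝ) • rootsE.map (Int.cast : ℤ → ℝ))ᵀ * 1 * ((1 / 2 : ℝ) • rootsE.map (Int.cast : ℤ → ℝ)) := by
      have h2 := congrArg (fun M : Matrix (Fin 8) (Fin 8) ℤ => M.map (Int.cast : ℤ → ℝ)) rootsE_mul
      have h3 : (rootsEᵀ * rootsE).map (Int.cast : ℤ → ℝ) = (rootsE.map (Int.cast : ℤ → ℝ))ᵀ * rootsE.map (Int.cast : ℤ → ℝ) := by
        rw [← Matrix.transpose_map]
        exact Matrix.map_mul (f := Int.castRingHom ℝ)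
      have h4 : ((4 : ℤ) • CartanMatrix.E₈).map (Int.cast : ℤ → ℝ) = (4 : ℝ) • CartanMatrix.E₈.map (Int.cast : ℤ → ℝ) := by
        ext i j
        simp only [Matrix.map_apply, Matrix.smul_apply, smul_eq_mul]
        push_cast
        ring
      replace h2 : (rootsEᵀ * rootsE).map (Int.cast : ℤ → ℝ) =
        ((4 : ℤ) • CartanMatrix.E₈).map (Int.cast : ℤ → ℝ) := h2
      rw [h3, h4] at h2
      rw [Matrix.mul_one, Matrix.transpose_smul, Matrix.smul_mul, Matrix.mul_smul, h2, smul_smul, smul_smul]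
      norm_num
    have h5 : PD (1 : Matrix (Fin 8) (Fin 8) ℝ) := by
      intro x hx
      rw [Matrix.one_mulVec]
      have := Matrix.dotProduct_star_self_pos_iff (v := x) |>.2 hx
      simpa using this
    have h6 : IsUnit ((1 / 2 : ℝ) • rootsE.map (Int.cast : ℤ → ℝ)).det := by
      have h7 := congrArg Matrix.det h1
      have h8 : (CartanMatrix.E₈.map (Int.cast : ℤ → ℝ)).det = 1 := by
        have := (Int.castRingHom ℝ).map_det CartanMatrix.E₈
        rw [CartanMatrix.E₈_det, map_one] at this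
        exact this.symm
      rw [h8, Matrix.det_mul] at h7
      exact IsUnit.of_mul_eq_one _ ((mul_comm _ _).trans h7.symm)
    refine h5.of_cg (cl_eq.1 ?_)
    rw [h1, cl_congr_det _ _ h6]

theorem D4_real : cl ((CartanMatrix.D 4).map (Int.cast : ℤ → ℝ)) = 4 • one 1 := by
  refine pd_cl 4 _ ?_ ?_ (by simp)
  · rw [← Matrix.transpose_map, CartanMatrix.D_transpose]
  · have h1 : ((CartanMatrix.D 4).map (Int.cast : ℤ → ℝ)) =
        (rootsD.map (Int.cast : ℤ → ℝ))ᵀ * 1 * (rootsD.map (Int.cast : ℤ → ℝ)) := by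
      rw [← rootsD_mul, Matrix.mul_one, ← Matrix.transpose_map]
      exact Matrix.map_mul (f := Int.castRingHom ℝ)
    have h5 : PD (1 : Matrix (Fin 4) (Fin 4) ℝ) := by
      intro x hx
      rw [Matrix.one_mulVec]
      have := Matrix.dotProduct_star_self_pos_iff (v := x) |>.2 hx
      simpa using this
    have h6 : IsUnit (rootsD.map (Int.cast : ℤ → ℝ)).det := by
      have h7 := congrArg Matrix.det h1
      have h8 : ((CartanMatrix.D 4).map (Int.cast : ℤ → ℝ)).det = 4 := by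
        have := (Int.castRingHom ℝ).map_det (CartanMatrix.D 4)
        rw [D4_det] at this
        simpa using this.symm
      rw [h8, Matrix.det_mul] at h7
      rw [isUnit_iff_ne_zero]
      intro h9
      rw [h9, mul_zero] at h7
      norm_num at h7
    refine h5.of_cg (cl_eq.1 ?_)
    rw [h1, cl_congr_det _ _ h6]

theorem two_not_sq : ¬ ∃ u : ℤ_[2], IsUnit u ∧ (-3 : ℤ_[2]) = u ^ 2 := by
  rintro ⟨u, hu, h⟩
  obtain ⟨t, ht⟩ := odd_of_unit u hu
  have h1 : u = 1 + 2 * t := by linear_combination ht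
  subst h1
  have h2 : (2 : ℤ_[2]) ∣ t * (t + 1) := by
    by_cases h3 : IsUnit t
    · obtain ⟨s, hs⟩ := odd_of_unit t h3
      exact ⟨t * (s + 1), by linear_combination t * hs⟩
    · exact ((nonunit_iff2 _).1 h3).mul_right _
  obtain ⟨s, hs⟩ := h2
  have h3 : (4 : ℤ_[2]) * (2 * s + 1) = 0 := by linear_combination -h - 4 * hs
  have h4 : (2 : ℤ_[2]) * s + 1 = 0 := by
    rcases mul_eq_zero.1 h3 with h5 | h5
    · norm_num at h5
    · exact h5
  exact not_two_dvd_one ⟨-s, by linear_combination h4⟩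

/-- even from upper triangular part -/
theorem even_map {ι : Type} (A B : Matrix ι ι ℤ) (h : A = B + Bᵀ) (R : Type) [CommRing R] :
    EvenM (A.map (Int.cast : ℤ → R)) := by
  refine ⟨B.map (Int.cast : ℤ → R), ?_⟩
  rw [h]
  ext i j
  simp

/-- upper triangular part of `E_8` -/
def halfE : Matrix (Fin 8) (Fin 8) ℤ :=
  Matrix.of fun i j => if i = j then 1 else if i < j then CartanMatrix.E₈ i j else 0

theorem halfE_eq : CartanMatrix.E₈ = halfE + halfEᵀ := by
  decide +kernel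

/-- the class of `U` -/
noncomputable abbrev UU : Iso ℤ_[2] := pl 0 1 0

/-- the class of `V` -/
noncomputable abbrev VVV : Iso ℤ_[2] := pl 1 1 1

theorem E8_two : cl (CartanMatrix.E₈.map (Int.cast : ℤ → ℤ_[2])) = 4 • UU := by
  obtain ⟨k, l, κ, _, _, C, hC, h⟩ := even_struct 8 (CartanMatrix.E₈.map (Int.cast : ℤ → ℤ_[2]))
    (even_map _ _ halfE_eq _) (by simp)
  have hd : (CartanMatrix.E₈.map (Int.cast : ℤ → ℤ_[2])).det = 1 := by
    have := (Int.castRingHom ℤ_[2]).map_det CartanMatrix.E₈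
    rw [CartanMatrix.E₈_det, map_one] at this
    exact this.symm
  have h1 := hasDet_cl (CartanMatrix.E₈.map (Int.cast : ℤ → ℤ_[2]))
  rw [hd, Fintype.card_fin] at h1
  have h2 := (((hasDet_pl (0 : ℤ_[2]) 1 0).nsmul k).add ((hasDet_pl (1 : ℤ_[2]) 1 1).nsmul l)).add
    (hasDet_cl ((2 : ℤ_[2]) • C))
  rw [← h] at h2
  obtain ⟨h3, u, hu, h4⟩ := h1.unique h2
  have hκ : IsEmpty κ := by
    by_contra hne
    rw [not_isEmpty_iff] at hne
    rw [Matrix.det_smul] at h4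
    have h5 : IsUnit (u ^ 2 * 1) := by
      rw [mul_one]
      exact hu.pow 2
    rw [← h4] at h5
    have h6 := (IsUnit.mul_iff.1 (IsUnit.mul_iff.1 h5).2).1
    have h7 : IsUnit (2 : ℤ_[2]) := (isUnit_pow_iff (Fintype.card_ne_zero)).1 h6
    exact (nonunit_iff2 _).2 (dvd_refl _) h7
  rw [cl_empty ((2 : ℤ_[2]) • C), add_zero] at h
  have hc : Fintype.card κ = 0 := Fintype.card_eq_zero_iff.2 hκ
  obtain ⟨k', ⟨h5, h6⟩ | ⟨h5, h6⟩⟩ := reduce k l
  · rw [h, h5]
    congr 1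
    omega
  · exfalso
    have h7 : k' = 3 := by omega
    subst h7
    rw [h5] at h
    have h8 := ((hasDet_pl (0 : ℤ_[2]) 1 0).nsmul 3).add ((hasDet_pl (1 : ℤ_[2]) 1 1))
    rw [← h] at h8
    obtain ⟨-, v, hv, h9⟩ := h1.unique h8
    apply two_not_sq
    refine ⟨v, hv, ?_⟩
    linear_combination h9

/-- congruence is preserved by scaling -/
theorem cg_smul {R : Type} [CommRing R] {ι κ : Type} [Fintype ι] [Fintype κ] [DecidableEq ι]
    [DecidableEq κ] {A : Matrix ι ι R} {B : Matrix κ κ R} (c : R) (h : CgM A B) :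
    CgM (c • A) (c • B) := by
  obtain ⟨P, Q, h1, h2, rfl⟩ := h
  refine ⟨P, Q, h1, h2, ?_⟩
  rw [Matrix.mul_smul, Matrix.smul_mul]

/-- the class of `V(2)` -/
noncomputable def V2 : Iso ℤ_[2] := cl ((2 : ℤ_[2]) • !![2 * 1, 1; 1, 2 * 1])

theorem V2_eq (a b c : ℤ_[2]) (ha : IsUnit a) (hb : IsUnit b) (hc : IsUnit c) :
    cl ((2 : ℤ_[2]) • !![2 * a, b; b, 2 * c]) = V2 :=
  cl_eq.2 (cg_smul 2 (cl_eq.1 (plane_V a b c ha hb hc)))

theorem hasDet_V2 : HasDet V2 2 12 := by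
  have := hasDet_cl ((2 : ℤ_[2]) • !![2 * 1, (1 : ℤ_[2]); 1, 2 * 1])
  rw [Matrix.det_smul, Matrix.det_fin_two_of, Fintype.card_fin] at this
  rw [V2]
  convert this using 1
  norm_num

theorem D4_two : cl ((CartanMatrix.D 4).map (Int.cast : ℤ → ℤ_[2])) = VVV + V2 := by
  obtain ⟨s', hs⟩ : IsUnit (3 : ℤ_[2]) := unit_of_odd 3 ⟨1, by norm_num⟩
  have hs' : 3 * (↑s'⁻¹ : ℤ_[2]) = 1 := by rw [← hs]; exact s'.mul_inv
  set s : ℤ_[2] := (↑s'⁻¹ : ℤ_[2]) with hsdef
  have hsu : IsUnit s := Units.isUnit _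
  have h0 : (CartanMatrix.D 4).submatrix (finSumFinEquiv : Fin 2 ⊕ Fin 2 ≃ Fin 4)
      (finSumFinEquiv : Fin 2 ⊕ Fin 2 ≃ Fin 4) =
      fromBlocks !![2, -1; -1, 2] !![0, 0; -1, -1] (!![0, 0; -1, -1])ᵀ !![2, 0; 0, 2] := by
    decide +kernel
  have h1 : ((CartanMatrix.D 4).map (Int.cast : ℤ → ℤ_[2])).submatrix
      (finSumFinEquiv : Fin 2 ⊕ Fin 2 ≃ Fin 4) (finSumFinEquiv : Fin 2 ⊕ Fin 2 ≃ Fin 4) =
      fromBlocks !![2 * 1, -1; -1, 2 * 1] !![0, 0; -1, -1] (!![0, 0; -1, -1])ᵀ !![2, 0; 0, 2] := by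
    rw [Matrix.submatrix_map, h0]
    ext (i | i) (j | j) <;> fin_cases i <;> fin_cases j <;> simp
  rw [← cl_reindex _ (finSumFinEquiv : Fin 2 ⊕ Fin 2 ≃ Fin 4), h1,
    cl_schur !![2 * 1, (-1 : ℤ_[2]); -1, 2 * 1] !![2 * s, s; s, 2 * s] !![0, 0; -1, -1] !![2, 0; 0, 2]
    (by
      ext i j
      fin_cases i <;> fin_cases j <;> simp)
    (by
      ext i j
      fin_cases i <;> fin_cases j
      · simp [Matrix.mul_apply, Fin.sum_univ_two]
        linear_combination hs'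
      · simp [Matrix.mul_apply, Fin.sum_univ_two, mul_comm]
      · simp [Matrix.mul_apply, Fin.sum_univ_two, mul_comm]
      · simp [Matrix.mul_apply, Fin.sum_univ_two]
        linear_combination hs')]
  congr 1
  · exact plane_V 1 (-1) 1 isUnit_one isUnit_one.neg isUnit_one
  · rw [← V2_eq s (-s) s hsu hsu.neg hsu]
    congr 1
    ext i j
    fin_cases i <;> fin_cases j
    · simp [Matrix.mul_apply, Fin.sum_univ_two]
      linear_combination -2 * hs'
    · simp [Matrix.mul_apply, Fin.sum_univ_two]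
    · simp [Matrix.mul_apply, Fin.sum_univ_two]
    · simp [Matrix.mul_apply, Fin.sum_univ_two]
      linear_combination -2 * hs'

end ED

end Pool.Agent.W2helper2.RLGenus
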