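import Pool.Agent.W2helper2.RLGenus4

set_option autoImplicit false

/-!
# The discriminant form determines the genus (JobGenus)
-/

open Matrix

namespace Pool.Agent.W2helper2.RLGenus

open Pool.Agent.Y813.RL

section main

variable {G : Matrix (Fin 20) (Fin 20) ℤ}

theorem G_real (hG : PosSymm G) : cl (G.map (Int.cast : ℤ → ℝ)) = 20 • one 1 := by
  refine pd_cl 20 _ ?_ ?_ (by simp)
  · rw [← Matrix.transpose_map, hG.symm]
  · intro x hx
    have := hG.pos x hx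
    rwa [bf_eq] at this

theorem det_map {R : Type} [CommRing R] {ι : Type} [Fintype ι] [DecidableEq ι] (B : Matrix ι ι ℤ) :
    (B.map (Int.cast : ℤ → R)).det = ((B.det : ℤ) : R) :=
  ((Int.castRingHom R).map_det B).symm

theorem det_pos (hG : PosSymm G) : 0 < G.det := by
  have h1 := hasDet_cl (G.map (Int.cast : ℤ → ℝ))
  rw [G_real hG] at h1
  obtain ⟨-, u, hu, h2⟩ := ((hasDet_one (1 : ℝ)).nsmul 20).unique h1
  rw [one_pow, mul_one, det_map] at h2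
  have h3 : (0 : ℝ) < (G.det : ℝ) := by
    rw [h2]
    exact pow_pos_of_ne hu
  exact_mod_cast h3
where
  pow_pos_of_ne {u : ℝ} (hu : IsUnit u) : 0 < u ^ 2 := by
    have := hu.ne_zero
    positivity

theorem H1 (hG : PosSymm G)
    (hodd : ∀ μ, (¬ ∃ v : Fin 20 → ℤ, μ = G.mulVec v) → ∃ k : ℤ, bd G μ μ = 2 * k + 1)
    (m : ℤ) (_hm : m ≠ 0) (v μ : Fin 20 → ℤ) (h : G *ᵥ v = m • μ) (hv : ¬ ∃ w, v = m • w) :
    ∃ k : ℤ, v ⬝ᵥ G *ᵥ v = m ^ 2 * (2 * k + 1) := by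
  have hd : G.det ≠ 0 := (det_pos hG).ne'
  have hμ : ¬ ∃ w : Fin 20 → ℤ, μ = G.mulVec w := by
    rintro ⟨w, rfl⟩
    apply hv
    refine ⟨w, ?_⟩
    have : G *ᵥ (v - m • w) = 0 := by rw [Matrix.mulVec_sub, Matrix.mulVec_smul, h, sub_self]
    exact sub_eq_zero.1 (Matrix.eq_zero_of_mulVec_eq_zero hd this)
  obtain ⟨k, hk⟩ := hodd μ hμ
  refine ⟨k, ?_⟩
  set GR := G.map (Int.cast : ℤ → ℝ) with hGR
  set vR : Fin 20 → ℝ := fun i => (v i : ℝ) with hvR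
  set μR : Fin 20 → ℝ := fun i => (μ i : ℝ) with hμR
  have hdR : IsUnit GR.det := by
    rw [hGR, det_map, isUnit_iff_ne_zero]
    exact_mod_cast hd
  have hG1 : ∀ i, (GR *ᵥ vR) i = ((G *ᵥ v) i : ℤ) := by
    intro i
    simp [Matrix.mulVec, dotProduct, hGR, hvR]
  have h1 : GR *ᵥ vR = (m : ℝ) • μR := by
    ext i
    rw [hG1, h]
    simp [hμR]
  have h2 : vR = (m : ℝ) • (GR⁻¹ *ᵥ μR) := by
    rw [← Matrix.mulVec_smul, ← h1, Matrix.mulVec_mulVec, Matrix.nonsing_inv_mul _ hdR,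
      Matrix.one_mulVec]
  have h3 : bd G μ μ = μR ⬝ᵥ (GR⁻¹ *ᵥ μR) := rfl
  have h4 : vR ⬝ᵥ GR *ᵥ vR = (m : ℝ) ^ 2 * bd G μ μ := by
    rw [h1, h3]
    conv_lhs => rw [h2]
    rw [smul_dotProduct, dotProduct_smul, dotProduct_comm]
    simp only [smul_eq_mul]
    ring
  have h5 : vR ⬝ᵥ GR *ᵥ vR = ((v ⬝ᵥ G *ᵥ v : ℤ) : ℝ) := by
    simp only [dotProduct, hG1]
    push_cast
    rfl
  rw [h5, hk] at h4
  exact_mod_cast h4

theorem G_even (hG : PosSymm G) (hE : ∀ i, Even (G i i)) :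
    ∃ B : Matrix (Fin 20) (Fin 20) ℤ, G = B + Bᵀ := by
  choose b hb using hE
  refine ⟨Matrix.of fun i j => if i = j then b i else if i < j then G i j else 0, ?_⟩
  have hs : ∀ i j, G i j = G j i := fun i j => congrFun (congrFun hG.symm.eq i).symm j |>.symm ▸ rfl
  ext i j
  simp only [Matrix.add_apply, Matrix.of_apply, Matrix.transpose_apply]
  rcases lt_trichotomy i j with h | h | h
  · rw [if_neg h.ne, if_pos h, if_neg h.ne', if_neg h.not_gt, add_zero]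
  · subst h
    rw [if_pos rfl]
    exact hb i
  · rw [if_neg h.ne', if_neg h.not_gt, if_neg h.ne, if_pos h, zero_add]
    exact hs i j

theorem even_val (hG : PosSymm G) (hE : ∀ i, Even (G i i)) (v : Fin 20 → ℤ) :
    ∃ k, v ⬝ᵥ G *ᵥ v = 2 * k := by
  obtain ⟨B, rfl⟩ := G_even hG hE
  refine ⟨v ⬝ᵥ B *ᵥ v, ?_⟩
  rw [Matrix.add_mulVec, dotProduct_add, Matrix.mulVec_transpose, dotProduct_comm v (v ᵥ* B),
    ← Matrix.dotProduct_mulVec]
  ring

theorem odd_prime (hG : PosSymm G) (hE : ∀ i, Even (G i i))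
    (hodd : ∀ μ, (¬ ∃ v : Fin 20 → ℤ, μ = G.mulVec v) → ∃ k : ℤ, bd G μ μ = 2 * k + 1)
    (p : ℕ) [hp : Fact p.Prime] (hp2 : p ≠ 2) : ¬ (p : ℤ) ∣ G.det := by
  intro hdvd
  have h1 : (G.map (Int.cast : ℤ → ZMod p)).det = 0 := by
    rw [det_map, ZMod.intCast_zmod_eq_zero_iff_dvd]
    exact hdvd
  obtain ⟨v, hv, hGv⟩ := Matrix.exists_mulVec_eq_zero_iff.2 h1
  have h2 : ∀ i, ∃ n : ℤ, (n : ZMod p) = v i := fun i => ZMod.intCast_surjective (v i)
  choose n hn using h2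
  have h3 : ∀ i, (p : ℤ) ∣ (G *ᵥ n) i := by
    intro i
    rw [← ZMod.intCast_zmod_eq_zero_iff_dvd]
    have := congrFun hGv i
    simp only [Matrix.mulVec, dotProduct, Matrix.map_apply, ← hn] at this ⊢
    push_cast
    simpa using this
  choose μ hμ using h3
  obtain ⟨k, hk⟩ := H1 hG hodd p (by exact_mod_cast hp.out.ne_zero) n μ
    (by
      ext i
      rw [hμ]
      simp) (by
      rintro ⟨w, rfl⟩
      apply hv
      ext i
      rw [← hn]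
      simp)
  obtain ⟨j, hj⟩ := even_val hG hE n
  rw [hj] at hk
  have h4 : Odd ((p : ℤ) ^ 2 * (2 * k + 1)) := by
    refine Odd.mul ?_ ⟨k, rfl⟩
    refine Odd.pow ?_
    exact_mod_cast hp.out.odd_of_ne_two hp2
  rw [← hk] at h4
  exact (Int.not_even_iff_odd.2 h4) ⟨j, by ring⟩

/-- approximation by integral vectors -/
theorem approx (v : Fin 20 → ℤ_[2]) : ∃ (n : Fin 20 → ℤ) (w : Fin 20 → ℤ_[2]),
    v = (fun i => (n i : ℤ_[2])) + (4 : ℤ_[2]) • w := by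
  have h : ∀ i, ∃ w : ℤ_[2], v i = ((PadicInt.appr (v i) 2 : ℕ) : ℤ_[2]) + 4 * w := by
    intro i
    have := PadicInt.appr_spec 2 (v i)
    rw [Ideal.mem_span_singleton] at this
    obtain ⟨w, hw⟩ := this
    refine ⟨w, ?_⟩
    have h4 : ((2 : ℕ) : ℤ_[2]) ^ 2 = 4 := by norm_num
    rw [h4] at hw
    linear_combination hw
  choose w hw using h
  refine ⟨fun i => (PadicInt.appr (v i) 2 : ℤ), w, ?_⟩
  ext i
  rw [hw i]
  simp

theorem two_dvd_int (n : ℤ) (h : (2 : ℤ_[2]) ∣ (n : ℤ_[2])) : (2 : ℤ) ∣ n := by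
  have := (PadicInt.pow_p_dvd_int_iff (p := 2) 1 n).1 (by simpa using h)
  simpa using this

theorem C_val (hG : PosSymm G)
    (hodd : ∀ μ, (¬ ∃ v : Fin 20 → ℤ, μ = G.mulVec v) → ∃ k : ℤ, bd G μ μ = 2 * k + 1)
    {α κ : Type} [Fintype α] [Fintype κ] [DecidableEq α] [DecidableEq κ]
    (M : Matrix α α ℤ_[2]) (C : Matrix κ κ ℤ_[2])
    (h : CgM (G.map (Int.cast : ℤ → ℤ_[2])) (fromBlocks M 0 0 ((2 : ℤ_[2]) • C)))
    (a : κ → ℤ_[2]) (j : κ) (ha : IsUnit (a j)) : ∃ t, a ⬝ᵥ C *ᵥ a = 2 + 4 * t := by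
  obtain ⟨P, Q, h1, h2, h3⟩ := h
  set GR := G.map (Int.cast : ℤ → ℤ_[2]) with hGR
  set a' : α ⊕ κ → ℤ_[2] := Sum.elim 0 a with ha'
  set v := P *ᵥ a' with hv
  have hQv : Q *ᵥ v = a' := by rw [hv, Matrix.mulVec_mulVec, h2, Matrix.one_mulVec]
  have hF : fromBlocks M 0 0 ((2 : ℤ_[2]) • C) *ᵥ a' = (2 : ℤ_[2]) • (Sum.elim 0 (C *ᵥ a) : α ⊕ κ → ℤ_[2]) := by
    rw [ha', Matrix.fromBlocks_mulVec]
    ext (i | i)
    · simp
    · simp [Matrix.smul_mulVec]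
  have hQP : Qᵀ * Pᵀ = 1 := by rw [← Matrix.transpose_mul, h1, Matrix.transpose_one]
  have hGv : GR *ᵥ v = (2 : ℤ_[2]) • (Qᵀ *ᵥ Sum.elim 0 (C *ᵥ a)) := by
    rw [← Matrix.mulVec_smul, ← hF, ← h3, hv, Matrix.mulVec_mulVec, Matrix.mulVec_mulVec,
      ← Matrix.mul_assoc, ← Matrix.mul_assoc, hQP, Matrix.one_mul]
  have hvv : v ⬝ᵥ GR *ᵥ v = 2 * (a ⬝ᵥ C *ᵥ a) := by
    have h4 : v ⬝ᵥ GR *ᵥ v = a' ⬝ᵥ (fromBlocks M 0 0 ((2 : ℤ_[2]) • C)) *ᵥ a' := by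
      rw [← h3, ← Matrix.mulVec_mulVec, ← Matrix.mulVec_mulVec, Matrix.dotProduct_mulVec a',
        Matrix.vecMul_transpose]
    rw [h4, hF, dotProduct_smul, smul_eq_mul]
    congr 1
    simp [ha', dotProduct, Fintype.sum_sum_type]
  obtain ⟨n, w, hnw⟩ := approx v
  set nR : Fin 20 → ℤ_[2] := fun i => (n i : ℤ_[2]) with hnR
  have hGn : ∀ i, (GR *ᵥ nR) i = ((G *ᵥ n) i : ℤ) := by
    intro i
    simp [Matrix.mulVec, dotProduct, hGR, hnR]
  have hn2 : ∀ i, (2 : ℤ) ∣ (G *ᵥ n) i := by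
    intro i
    apply two_dvd_int
    rw [← hGn]
    have h5 : GR *ᵥ nR = GR *ᵥ v - (4 : ℤ_[2]) • (GR *ᵥ w) := by
      rw [hnw, Matrix.mulVec_add, Matrix.mulVec_smul]
      abel
    rw [h5, hGv]
    refine ⟨(Qᵀ *ᵥ Sum.elim 0 (C *ᵥ a)) i - 2 * (GR *ᵥ w) i, ?_⟩
    simp only [Pi.sub_apply, Pi.smul_apply, smul_eq_mul]
    ring
  choose μ hμ using hn2
  obtain ⟨k, hk⟩ := H1 hG hodd 2 (by norm_num) n μ
    (by
      ext i
      rw [hμ]
      simp) (by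
      rintro ⟨w', rfl⟩
      have h6 : v = (2 : ℤ_[2]) • ((fun i => (w' i : ℤ_[2])) + (2 : ℤ_[2]) • w) := by
        rw [hnw]
        ext i
        simp only [hnR, Pi.add_apply, Pi.smul_apply, smul_eq_mul]
        push_cast
        ring
      have h7 : a' = (2 : ℤ_[2]) • (Q *ᵥ ((fun i => (w' i : ℤ_[2])) + (2 : ℤ_[2]) • w)) := by
        rw [← Matrix.mulVec_smul, ← h6, hQv]
      have h8 := congrFun h7 (Sum.inr j)
      have h9 : a' (Sum.inr j) = a j := rfl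
      rw [h9, Pi.smul_apply, smul_eq_mul] at h8
      exact (nonunit_iff2 _).2 ⟨_, h8⟩ ha)
  have hnn : nR ⬝ᵥ GR *ᵥ nR = 4 * (2 * (k : ℤ_[2]) + 1) := by
    have h5 : nR ⬝ᵥ GR *ᵥ nR = ((n ⬝ᵥ G *ᵥ n : ℤ) : ℤ_[2]) := by
      simp only [dotProduct, hGn]
      push_cast
      rfl
    rw [h5, hk]
    push_cast
    ring
  have hsym : GRᵀ = GR := by rw [hGR, ← Matrix.transpose_map, hG.symm]
  have hcross : nR ⬝ᵥ GR *ᵥ w = w ⬝ᵥ GR *ᵥ nR := by
    rw [Matrix.dotProduct_mulVec, ← Matrix.mulVec_transpose, hsym, dotProduct_comm]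
  have hfin : v ⬝ᵥ GR *ᵥ v = nR ⬝ᵥ GR *ᵥ nR + 8 * (w ⬝ᵥ GR *ᵥ nR) + 16 * (w ⬝ᵥ GR *ᵥ w) := by
    rw [hnw, Matrix.mulVec_add, Matrix.mulVec_smul, dotProduct_add, add_dotProduct, add_dotProduct,
      dotProduct_smul, smul_dotProduct, smul_dotProduct, dotProduct_smul, hcross]
    simp only [smul_eq_mul]
    ring
  refine ⟨k + w ⬝ᵥ GR *ᵥ nR + 2 * (w ⬝ᵥ GR *ᵥ w), ?_⟩
  have h10 : (2 : ℤ_[2]) * (a ⬝ᵥ C *ᵥ a) =
      2 * (2 + 4 * (k + w ⬝ᵥ GR *ᵥ nR + 2 * (w ⬝ᵥ GR *ᵥ w))) := by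
    rw [← hvv, hfin, hnn]
    ring
  exact mul_left_cancel₀ two_ne_zero h10

/-- the values of the form `C` -/
def Good {κ : Type} [Fintype κ] (C : Matrix κ κ ℤ_[2]) : Prop :=
  ∀ (a : κ → ℤ_[2]) (j : κ), IsUnit (a j) → ∃ t, a ⬝ᵥ C *ᵥ a = 2 + 4 * t

section good

variable {κ : Type} [Fintype κ] [DecidableEq κ] {C : Matrix κ κ ℤ_[2]}

theorem Good.diag (h : Good C) (i : κ) : ∃ t, C i i = 2 + 4 * t := by
  obtain ⟨t, ht⟩ := h (Pi.single i 1) i (by simp)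
  exact ⟨t, by simpa using ht⟩

theorem Good.off (h : Good C) (hC : Cᵀ = C) (i j : κ) (hij : i ≠ j) : ∃ t, C i j = 1 + 2 * t := by
  obtain ⟨t, ht⟩ := h (Pi.single i 1 + Pi.single j 1) i (by simp [hij])
  obtain ⟨t1, ht1⟩ := h.diag i
  obtain ⟨t2, ht2⟩ := h.diag j
  have hs : C j i = C i j := congrFun (congrFun hC i) j
  have h1 : (Pi.single i 1 + Pi.single j 1) ⬝ᵥ C *ᵥ (Pi.single i 1 + Pi.single j 1) =
      C i i + C j j + 2 * C i j := by
    rw [Matrix.mulVec_add, dotProduct_add, add_dotProduct, add_dotProduct]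
    simp [hs]
    ring
  rw [h1, ht1, ht2] at ht
  refine ⟨t - t1 - t2 - 1, ?_⟩
  have h2 : (2 : ℤ_[2]) * C i j = 2 * (1 + 2 * (t - t1 - t2 - 1)) := by linear_combination ht
  exact mul_left_cancel₀ two_ne_zero h2

theorem Good.card_le (h : Good C) (hC : Cᵀ = C) : Fintype.card κ ≤ 2 := by
  by_contra hc
  push Not at hc
  obtain ⟨i, j, l, hij, hil, hjl⟩ := Fintype.two_lt_card_iff.1 hc
  obtain ⟨t, ht⟩ := h (Pi.single i 1 + Pi.single j 1 + Pi.single l 1) i (by simp [hij, hil])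
  obtain ⟨t1, ht1⟩ := h.diag i
  obtain ⟨t2, ht2⟩ := h.diag j
  obtain ⟨t3, ht3⟩ := h.diag l
  obtain ⟨t4, ht4⟩ := h.off hC i j hij
  obtain ⟨t5, ht5⟩ := h.off hC i l hil
  obtain ⟨t6, ht6⟩ := h.off hC j l hjl
  have hs : ∀ i j, C j i = C i j := fun i j => congrFun (congrFun hC i) j
  have h1 : (Pi.single i 1 + Pi.single j 1 + Pi.single l 1) ⬝ᵥ C *ᵥ
      (Pi.single i 1 + Pi.single j 1 + Pi.single l 1) =
      C i i + C j j + C l l + 2 * C i j + 2 * C i l + 2 * C j l := by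
    rw [Matrix.mulVec_add, Matrix.mulVec_add]
    simp only [dotProduct_add, add_dotProduct]
    simp [hs i j, hs i l, hs j l]
    ring
  rw [h1, ht1, ht2, ht3, ht4, ht5, ht6] at ht
  have h2 : (2 : ℤ_[2]) * 1 = 2 * (2 * (t - t1 - t2 - t3 - t4 - t5 - t6 - 2)) := by
    linear_combination ht
  have h3 := mul_left_cancel₀ two_ne_zero h2
  exact not_two_dvd_one ⟨_, h3⟩

theorem Good.eq_V2 (h : Good C) (hC : Cᵀ = C) (hc : Fintype.card κ = 2) :
    cl ((2 : ℤ_[2]) • C) = V2 := by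
  have e : Fin 2 ≃ κ := (Fintype.equivFinOfCardEq hc).symm
  have hne : e 0 ≠ e 1 := fun h => by simpa using e.injective h
  obtain ⟨t1, ht1⟩ := h.diag (e 0)
  obtain ⟨t2, ht2⟩ := h.diag (e 1)
  obtain ⟨t3, ht3⟩ := h.off hC _ _ hne
  have hs : C (e 1) (e 0) = C (e 0) (e 1) := congrFun (congrFun hC (e 0)) (e 1)
  rw [← cl_reindex _ e, ← V2_eq (1 + 2 * t1) (1 + 2 * t3) (1 + 2 * t2)
    (unit_of_odd _ ⟨t1, by ring⟩) (unit_of_odd _ ⟨t3, by ring⟩) (unit_of_odd _ ⟨t2, by ring⟩)]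
  congr 1
  ext i j
  fin_cases i <;> fin_cases j
  · simp [ht1]
    ring
  · simp [ht3]
  · simp [hs, ht3]
  · simp [ht2]
    ring

end good

theorem det_cases (hG : PosSymm G) (hE : ∀ i, Even (G i i))
    (hodd : ∀ μ, (¬ ∃ v : Fin 20 → ℤ, μ = G.mulVec v) → ∃ k : ℤ, bd G μ μ = 2 * k + 1) :
    ∃ j : ℕ, G.det = 2 ^ j := by
  have h0 := det_pos hG
  lift G.det to ℕ using h0.le with d hd
  rcases Nat.eq_two_pow_or_exists_odd_prime_and_dvd d with ⟨k, hk⟩ | ⟨p, hp, hpd, hpo⟩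
  · exact ⟨k, by exact_mod_cast hk⟩
  · exfalso
    have : Fact p.Prime := ⟨hp⟩
    have hp2 : p ≠ 2 := by
      rintro rfl
      exact absurd hpo (by decide)
    apply odd_prime hG hE hodd p hp2
    rw [← hd]
    exact_mod_cast hpd

theorem unit_nsmul_det (k l : ℕ) : ∃ d : ℤ_[2], IsUnit d ∧
    HasDet (k • UU + l • VVV) (k * 2 + l * 2) d := by
  refine ⟨_, ?_, ((hasDet_pl (0 : ℤ_[2]) 1 0).nsmul k).add ((hasDet_pl (1 : ℤ_[2]) 1 1).nsmul l)⟩
  refine IsUnit.mul (IsUnit.pow _ ?_) (IsUnit.pow _ ?_)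
  · have : (4 * 0 * 0 - 1 ^ 2 : ℤ_[2]) = -1 := by ring
    rw [this]
    exact isUnit_one.neg
  · have : (4 * 1 * 1 - 1 ^ 2 : ℤ_[2]) = 3 := by ring
    rw [this]
    exact unit_of_odd 3 ⟨1, by norm_num⟩

theorem G_two (hG : PosSymm G) (hE : ∀ i, Even (G i i))
    (hodd : ∀ μ, (¬ ∃ v : Fin 20 → ℤ, μ = G.mulVec v) → ∃ k : ℤ, bd G μ μ = 2 * k + 1)
    (h1 : G.det ≠ 1) :
    G.det = 4 ∧ cl (G.map (Int.cast : ℤ → ℤ_[2])) = 8 • UU + VVV + V2 := by
  obtain ⟨e, he⟩ := det_cases hG hE hodd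
  obtain ⟨B, hB⟩ := G_even hG hE
  obtain ⟨k, l, κ, _, _, C, hC, h⟩ := even_struct 20 (G.map (Int.cast : ℤ → ℤ_[2]))
    (even_map _ _ hB _) (by simp)
  obtain ⟨α, _, _, M, hM⟩ := exists_rep (k • UU + l • VVV)
  have hgood : Good C := by
    intro a j ha
    refine C_val hG hodd M C ?_ a j ha
    apply cl_eq.1
    rw [h, ← cl_add, hM]
  have hcard := hgood.card_le hC
  obtain ⟨d, hd, hd'⟩ := unit_nsmul_det k l
  have hdG := hasDet_cl (G.map (Int.cast : ℤ → ℤ_[2]))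
  rw [det_map, Fintype.card_fin, he] at hdG
  obtain ⟨hr, u, hu, hdet⟩ := ((hd'.add (hasDet_cl ((2 : ℤ_[2]) • C)))).unique (by rw [← h]; exact hdG)
  have hcases : Fintype.card κ = 0 ∨ Fintype.card κ = 2 := by omega
  rcases hcases with hc | hc
  · exfalso
    have : IsEmpty κ := Fintype.card_eq_zero_iff.1 hc
    rw [Matrix.det_isEmpty, mul_one] at hdet
    have h2 : IsUnit (((2 : ℤ) ^ e : ℤ) : ℤ_[2]) := by
      rw [hdet]
      exact (hu.pow 2).mul hd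
    push_cast at h2
    rcases Nat.eq_zero_or_pos e with rfl | he0
    · exact h1 (by simpa using he)
    · have h7 : IsUnit (2 : ℤ_[2]) := (isUnit_pow_iff he0.ne').1 h2
      exact (nonunit_iff2 _).2 (dvd_refl _) h7
  · have hV2 := hgood.eq_V2 hC hc
    rw [hV2] at h
    have hdet2 := (hd'.add hasDet_V2)
    rw [← h] at hdet2
    obtain ⟨-, u', hu', hdet'⟩ := hdet2.unique hdG
    have he2 : e = 2 := by
      push_cast at hdet'
      have h3u : IsUnit (3 : ℤ_[2]) := unit_of_odd 3 ⟨1, by norm_num⟩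
      have hw : IsUnit (u' ^ 2 * d * 3) := ((hu'.pow 2).mul hd).mul h3u
      have h4 : (2 : ℤ_[2]) ^ e = 4 * (u' ^ 2 * d * 3) := by rw [hdet']; ring
      have h40 : (4 : ℤ_[2]) ≠ 0 := by norm_num
      rcases e with _ | _ | _ | e
      · exfalso
        rw [pow_zero] at h4
        exact not_two_dvd_one ⟨2 * (u' ^ 2 * d * 3), by linear_combination h4⟩
      · exfalso
        have h5 : (2 : ℤ_[2]) * 1 = 2 * (2 * (u' ^ 2 * d * 3)) := by linear_combination h4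
        exact not_two_dvd_one ⟨_, mul_left_cancel₀ two_ne_zero h5⟩
      · rfl
      · exfalso
        have h5 : (4 : ℤ_[2]) * (2 * 2 ^ e) = 4 * (u' ^ 2 * d * 3) := by
          rw [← h4]
          ring
        have h6 := mul_left_cancel₀ h40 h5
        rw [← h6] at hw
        exact (nonunit_iff2 _).2 ⟨2 ^ e, rfl⟩ hw
    subst he2
    refine ⟨by rw [he]; norm_num, ?_⟩
    obtain ⟨k', ⟨h5, h6⟩ | ⟨h5, h6⟩⟩ := reduce k l
    · exfalso
      have h7 : k' = 9 := by omega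
      subst h7
      rw [h5] at h
      have h8 := ((hasDet_pl (0 : ℤ_[2]) 1 0).nsmul 9).add hasDet_V2
      rw [← h] at h8
      obtain ⟨-, v, hv, h9⟩ := hdG.unique h8
      apply two_not_sq
      refine ⟨v, hv, ?_⟩
      have h10 : (4 : ℤ_[2]) * (-3) = 4 * v ^ 2 := by
        push_cast at h9
        linear_combination h9
      exact mul_left_cancel₀ (by norm_num) h10
    · have h7 : k' = 8 := by omega
      subst h7
      rw [h, h5]

theorem gram_cl (R : Type) [CommRing R] :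
    cl (gramEED.map (Int.cast : ℤ → R)) = cl (CartanMatrix.E₈.map (Int.cast : ℤ → R)) +
      (cl (CartanMatrix.E₈.map (Int.cast : ℤ → R)) + cl ((CartanMatrix.D 4).map (Int.cast : ℤ → R))) := by
  rw [cl_add, cl_add, gramEED, Matrix.fromBlocks_map, Matrix.fromBlocks_map]
  congr 1
  congr 1
  · ext i j; simp
  · ext i j; simp
  · congr 1
    · ext i j; simp
    · ext i j; simp

theorem gram_det : gramEED.det = 4 := by
  rw [gramEED, Matrix.det_fromBlocks_zero₂₁, Matrix.det_fromBlocks_zero₂₁, CartanMatrix.E₈_det,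
    D4_det]
  norm_num

theorem gram_symm : gramEEDᵀ = gramEED := by
  rw [gramEED, Matrix.fromBlocks_transpose, Matrix.fromBlocks_transpose, CartanMatrix.E₈_transpose,
    CartanMatrix.D_transpose]
  simp

/-- JobGenus -/
theorem job : JobGenus := by
  intro G hG hE hodd h1
  obtain ⟨hdet, htwo⟩ := G_two hG hE hodd h1
  refine ⟨isom_of_cl G gramEED ?_, ?_⟩
  · rw [G_real hG, gram_cl, E8_real, D4_real, ← add_nsmul, ← add_nsmul]
  · intro p hp
    apply isom_of_cl G gramEED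
    by_cases hp2 : p = 2
    · subst hp2
      rw [gram_cl]
      have e1 := E8_two
      have e2 := D4_two
      have e3 := htwo
      have e4 : (4 : ℕ) • UU + (4 • UU + (VVV + V2)) = 8 • UU + VVV + V2 := by
        have : (8 : ℕ) • UU = 4 • UU + 4 • UU := by rw [← add_nsmul]
        rw [this]
        abel
      rw [e1, e2, e4]
      exact e3
    · refine odd_unique hp2 _ _ ?_ ?_ ?_ 19 (by simp) (by simp) ?_
      · rw [← Matrix.transpose_map, hG.symm]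
      · rw [← Matrix.transpose_map, gram_symm]
      · rw [det_map, hdet]
        have := (two_unit (p := p) hp2).pow 2
        have h4 : (2 : ℤ_[p]) ^ 2 = ((4 : ℤ) : ℤ_[p]) := by norm_num
        rwa [h4] at this
      · rw [det_map, det_map, hdet, gram_det]

end main

end Pool.Agent.W2helper2.RLGenus
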